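import Pool.Agent.Lib.MP_f9875e_gt.H28Rec

/-! Recursion with choices, long well orders and small closed hulls. -/

open Set Filter Cardinal

namespace Pool.Agent.Lib.MP_f9875e_gt.Db

theorem wf_choice {K D : Type} [LinearOrder K] [WellFoundedLT K] [Nonempty D]
    (Φ : K → (K → D) → D → Prop)
    (hloc : ∀ c Z Z' d, (∀ a < c, Z a = Z' a) → Φ c Z d → Φ c Z' d)
    (hex : ∀ c Z, (∀ a < c, Φ a Z (Z a)) → ∃ d, Φ c Z d) : ∃ Z, ∀ c, Φ c Z (Z c) := by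
  classical
  let Z : K → D := (wellFounded_lt (α := K)).fix fun c prev =>
    Classical.epsilon (Φ c fun a => if h : a < c then prev a h else Classical.arbitrary D)
  have hZ : ∀ c, Z c =
      Classical.epsilon (Φ c fun a => if a < c then Z a else Classical.arbitrary D) := by
    intro c
    simp only [Z]
    rw [WellFounded.fix_eq]
    simp
  refine ⟨Z, fun c => ?_⟩
  induction c using WellFoundedLT.induction with
  | _ c ih =>
    obtain ⟨d, hd⟩ := hex c Z ih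
    have h1 := Classical.epsilon_spec ⟨d, hloc c Z
      (fun a => if a < c then Z a else Classical.arbitrary D) d (fun a ha => (if_pos ha).symm) hd⟩
    rw [← hZ] at h1
    exact hloc c _ Z _ (fun a ha => if_pos ha) h1

/-- The order looks like the least ordinal of the successor of `μ`. -/
structure Long (T : Type) [LinearOrder T] (μ : Cardinal.{0}) : Prop where
  bd : ∀ s : ℕ → T, ∃ γ, ∀ k, s k < γ
  ini : ∀ a : T, #(Iic a) ≤ μ
  card : #T = Order.succ μ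

theorem long_succ {μ : Cardinal.{0}} (hμ : ℵ₀ ≤ μ) : Long (Order.succ μ).ord.ToType μ where
  bd := exists_bound (by
    rw [(isRegular_succ hμ).cof_ord]
    exact hμ.trans_lt (Order.lt_succ _))
  ini a := by
    rw [← Iio_insert]
    refine mk_insert_le.trans ?_
    have h1 : #(Iio a) ≤ μ := Order.lt_succ_iff.1 (mk_Iio_toType_ord_lt a)
    exact (add_le_add h1 (one_le_aleph0.trans hμ)).trans (add_eq_self hμ).le
  card := mk_ord_toType _

variable {T Y : Type} [LinearOrder T] {μ : Cardinal.{0}}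

theorem Long.ne (L : Long T μ) : Nonempty T :=
  mk_ne_zero_iff.1 (by rw [L.card]; exact succ_ne_zero _)

theorem Long.bdc (L : Long T μ) {A : Set T} (hA : A.Countable) : ∃ γ, ∀ a ∈ A, a < γ := by
  obtain ⟨t⟩ := L.ne
  obtain ⟨s, hs⟩ := (hA.insert t).exists_eq_range (insert_nonempty _ _)
  obtain ⟨γ, hγ⟩ := L.bd s
  refine ⟨γ, fun a ha => ?_⟩
  obtain ⟨k, rfl⟩ : a ∈ range s := hs ▸ Or.inr ha
  exact hγ k

theorem mk_biUnion_le' {ι : Type} {s : Set ι} {A : ι → Set Y} (hμ : ℵ₀ ≤ μ) (hs : #s ≤ μ)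
    (hA : ∀ i ∈ s, #(A i) ≤ μ) : #(⋃ i ∈ s, A i) ≤ μ :=
  (mk_biUnion_le A s).trans ((mul_le_mul' hs (ciSup_le' fun i : s => hA i i.2)).trans
    (mul_eq_self hμ).le)

theorem mk_union_le' {A B : Set Y} (hμ : ℵ₀ ≤ μ) (hA : #A ≤ μ) (hB : #B ≤ μ) :
    #(A ∪ B : Set Y) ≤ μ :=
  (mk_union_le A B).trans ((add_le_add hA hB).trans (add_eq_self hμ).le)

/-- A set of size at most the successor is an increasing union of small sets. -/
theorem Long.filt (L : Long T μ) {X : Set Y} (hX : #X ≤ Order.succ μ) :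
    ∃ S : T → Set Y, Monotone S ∧ (∀ ξ, S ξ ⊆ X) ∧ (∀ ξ, #(S ξ) ≤ μ) ∧
      ∀ y ∈ X, ∃ ξ, y ∈ S ξ := by
  obtain ⟨ι⟩ : Nonempty (X ↪ T) := (Cardinal.le_def _ _).1 (hX.trans L.card.ge)
  refine ⟨fun ξ => Subtype.val '' (ι ⁻¹' Iic ξ),
    fun a b h => image_mono (preimage_mono (Iic_subset_Iic.2 h)), fun ξ => ?_, fun ξ => ?_,
    fun y hy => ⟨ι ⟨y, hy⟩, ⟨y, hy⟩, mem_Iic.2 le_rfl, rfl⟩⟩
  · rintro _ ⟨y, -, rfl⟩
    exact y.2
  · exact mk_image_le.trans ((mk_preimage_of_injective _ _ ι.injective).trans (L.ini ξ))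

/-- The cardinals below the first singular one. -/
noncomputable def al : ℕ → Cardinal.{0}
  | 0 => ℵ₀
  | n + 1 => Order.succ (al n)

theorem al_inf : ∀ n, ℵ₀ ≤ al n
  | 0 => le_rfl
  | n + 1 => (al_inf n).trans (Order.le_succ _)

theorem al_eq : ∀ n : ℕ, al n = ℵ_ n
  | 0 => by simp [al]
  | n + 1 => by rw [al, al_eq n, succ_aleph, Nat.cast_succ]

theorem cl_card (cl : Set Y → Set Y) (hm : Monotone cl)
    (hd : ∀ X, ∀ y ∈ cl X, ∃ A ⊆ X, A.Countable ∧ y ∈ cl A)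
    (hc : ∀ A : Set Y, A.Countable → (cl A).Countable) :
    ∀ (n : ℕ) (X : Set Y), #X ≤ al n → #(cl X) ≤ al n
  | 0, X, hX => (hc X (le_aleph0_iff_set_countable.1 hX)).le_aleph0
  | n + 1, X, hX => by
    have L := long_succ (al_inf n)
    obtain ⟨S, h1, -, h3, h4⟩ := L.filt hX
    refine le_trans (mk_le_mk_of_subset (t := ⋃ ξ ∈ Set.univ, cl (S ξ)) fun y hy => ?_)
      (mk_biUnion_le' (al_inf (n + 1)) (mk_univ.trans L.card).le fun ξ _ =>
        (cl_card cl hm hd hc n _ (h3 ξ)).trans (Order.le_succ _))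
    obtain ⟨A, a1, a2, a3⟩ := hd X y hy
    have := L.ne
    choose! f hf using h4
    obtain ⟨γ, hγ⟩ := L.bdc (a2.image f)
    exact mem_biUnion (mem_univ γ)
      (hm (fun z hz => h1 (hγ _ (mem_image_of_mem f hz)).le (hf z (a1 hz))) a3)

theorem hull (Op : Set Y → Set Y) (hm : Monotone Op) (h1 : Order.succ ℵ₀ ≤ μ)
    (hc : ∀ X : Set Y, #X ≤ μ → #(Op X) ≤ μ) {S : Set Y} (hS : #S ≤ μ) :
    ∃ H, S ⊆ H ∧ #H ≤ μ ∧ ∀ A ⊆ H, A.Countable → Op A ⊆ H := by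
  have hμ : ℵ₀ ≤ μ := (Order.le_succ _).trans h1
  have L := long_succ (le_refl ℵ₀)
  obtain ⟨Z, hZ⟩ := wf_choice (K := (Order.succ ℵ₀).ord.ToType) (D := Set Y)
    (fun c Z d => d = Op (S ∪ ⋃ a ∈ Iio c, Z a) ∧ #d ≤ μ)
    (fun c Z Z' d h h' => by
      rwa [← iUnion₂_congr (s := fun a (_ : a ∈ Iio c) => Z a) fun a ha => h a ha])
    fun c Z h => ⟨_, rfl, hc _ (mk_union_le' hμ hS (mk_biUnion_le' hμ
      ((mk_le_mk_of_subset Iio_subset_Iic_self).trans ((L.ini c).trans hμ)) fun a ha => (h a ha).2))⟩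
  refine ⟨S ∪ ⋃ a ∈ Set.univ, Z a, subset_union_left, mk_union_le' hμ hS (mk_biUnion_le' hμ
    ((mk_univ.trans L.card).le.trans h1) fun a _ => (hZ a).2), fun A hA hA' => ?_⟩
  obtain ⟨t⟩ := L.ne
  have h2 : ∀ y ∈ A, ∃ a, y ∈ S ∨ y ∈ Z a := fun y hy => by
    rcases hA hy with h | h
    · exact ⟨t, Or.inl h⟩
    · obtain ⟨a, -, h⟩ := mem_iUnion₂.1 h
      exact ⟨a, Or.inr h⟩
  have := L.ne
  choose! f hf using h2
  obtain ⟨γ, hγ⟩ := L.bdc (hA'.image f)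
  refine subset_union_of_subset_right (subset_biUnion_of_mem (u := Z) (mem_univ γ) |>.trans' ?_) _
  rw [(hZ γ).1]
  exact hm fun y hy => (hf y hy).imp_right fun h =>
    mem_biUnion (hγ _ (mem_image_of_mem f hy)) h

/-- The points of `P` all of whose neighbourhoods meet `X`. -/
def cl (W : Y → ℕ → Set Y) (P X : Set Y) : Set Y := {y | y ∈ P ∧ ∀ k, (W y k ∩ X).Nonempty}

theorem cl_mono (W : Y → ℕ → Set Y) (P : Set Y) : Monotone (cl W P) :=
  fun _ _ h _ hy => ⟨hy.1, fun k => (hy.2 k).mono (inter_subset_inter_right _ h)⟩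

theorem cl_det (W : Y → ℕ → Set Y) (P X : Set Y) :
    ∀ y ∈ cl W P X, ∃ A ⊆ X, A.Countable ∧ y ∈ cl W P A := by
  intro y hy
  choose z hz using hy.2
  exact ⟨range z, range_subset_iff.2 fun k => (hz k).2, countable_range z, hy.1,
    fun k => ⟨z k, (hz k).1, mem_range_self k⟩⟩

theorem small_hull (W : Y → ℕ → Set Y) (P : Set Y) (m : ℕ)
    (h0 : ∀ y ∈ P, #(W y 0) ≤ al (m + 1))
    (hc : ∀ A : Set Y, A.Countable → (cl W P A).Countable) {S : Set Y} (hS : #S ≤ al (m + 1)) :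
    ∃ H, S ⊆ H ∧ #H ≤ al (m + 1) ∧ (∀ y ∈ H, y ∈ P → W y 0 ⊆ H) ∧ cl W P H ⊆ H := by
  obtain ⟨H, h1, h2, h3⟩ := hull (fun X => (⋃ y ∈ X ∩ P, W y 0) ∪ cl W P X)
    (fun X X' h => union_subset_union (biUnion_subset_biUnion_left (inter_subset_inter_left _ h))
      (cl_mono W P h)) (Order.succ_le_succ (al_inf m))
    (fun X hX => mk_union_le' (al_inf (m + 1)) (mk_biUnion_le' (al_inf (m + 1))
      ((mk_le_mk_of_subset inter_subset_left).trans hX) fun y hy => h0 y hy.2)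
      (cl_card _ (cl_mono W P) (cl_det W P) hc (m + 1) X hX)) hS
  refine ⟨H, h1, h2, fun y hy hP z hz => h3 {y} (singleton_subset_iff.2 hy)
    (countable_singleton y) (Or.inl (mem_biUnion ⟨rfl, hP⟩ hz)), fun y hy => ?_⟩
  obtain ⟨A, a1, a2, a3⟩ := cl_det W P H y hy
  exact h3 A a1 a2 (Or.inr a3)

/-- Countably many upper sets separate only countably many points from everything below. -/
theorem countable_lub [WellFoundedLT T] {A : Set Y} (hA : A.Countable) (I : Y → Set T)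
    (hI : ∀ z, IsUpperSet (I z)) :
    {η | ∀ ζ < η, ∃ z ∈ A, η ∈ I z ∧ ζ ∉ I z}.Countable := by
  set E := {η | ∀ ζ < η, ∃ z ∈ A, η ∈ I z ∧ ζ ∉ I z} with hE
  have h1 : ∀ B : Set T, {η | IsGreatest B η}.Countable := fun B =>
    Subsingleton.countable fun _ h _ h' => h.unique h'
  refine ((hA.biUnion fun z _ => h1 (E \ I z)).union (h1 E)).mono fun η hη => ?_
  by_cases h : ∃ η' ∈ E, η < η'
  · obtain ⟨η', ⟨h2, h3⟩, h4⟩ := wellFounded_lt.has_min {η' | η' ∈ E ∧ η < η'} h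
    obtain ⟨z, z1, z2, z3⟩ := h2 η h3
    refine Or.inl (mem_biUnion z1 ⟨⟨hη, z3⟩, fun b hb => le_of_not_gt fun h5 => ?_⟩)
    exact hb.2 (hI z (le_of_not_gt (h4 b ⟨hb.1, h5⟩)) z2)
  · exact Or.inr ⟨hη, fun b hb => le_of_not_gt fun h5 => h ⟨b, hb, h5⟩⟩

/-- Ladders. -/
theorem exists_ladder (T : Type) [LinearOrder T] : ∃ lam : T → ℕ → Set T,
    (∀ η, Monotone (lam η)) ∧ (∀ η k, ∀ ζ ∈ lam η k, ζ < η) ∧
    (∀ η, ∀ ζ < η, ∃ k, ∃ ζ' ∈ lam η k, ζ ≤ ζ') ∧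
    ∀ η k (t : ℕ → T), (∀ i, t i ∈ lam η k) → ∃ ζ ∈ lam η k, ∀ i, t i ≤ ζ := by
  have key : ∀ η : T, ∃ l : ℕ → Set T, Monotone l ∧ (∀ k, ∀ ζ ∈ l k, ζ < η) ∧
      (∀ ζ < η, ∃ k, ∃ ζ' ∈ l k, ζ ≤ ζ') ∧
      ∀ k (t : ℕ → T), (∀ i, t i ∈ l k) → ∃ ζ ∈ l k, ∀ i, t i ≤ ζ := by
    intro η
    by_cases h : ∀ t : ℕ → T, (∀ i, t i ∈ Iio η) → ∃ ζ ∈ Iio η, ∀ i, t i ≤ ζ
    · exact ⟨fun _ => Iio η, monotone_const, fun _ _ h => h, fun ζ hζ => ⟨0, ζ, hζ, le_rfl⟩,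
        fun _ => h⟩
    · push Not at h
      obtain ⟨s, h1, h2⟩ := h
      refine ⟨fun k => s '' Iic k, fun a b h => image_mono (Iic_subset_Iic.2 h), ?_,
        fun ζ hζ => ?_, fun k t ht => ?_⟩
      · rintro k _ ⟨i, -, rfl⟩
        exact h1 i
      · obtain ⟨i, hi⟩ := h2 ζ hζ
        exact ⟨i, s i, ⟨i, mem_Iic.2 le_rfl, rfl⟩, hi.le⟩
      · obtain ⟨ζ, h3, h4⟩ := Set.exists_max_image (s '' Iic k) id ((finite_Iic k).image s)
          ⟨_, ht 0⟩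
        exact ⟨ζ, h3, fun i => h4 _ (ht i)⟩
  choose lam h1 h2 h3 h4 using key
  exact ⟨lam, h1, h2, h3, h4⟩

end Pool.Agent.Lib.MP_f9875e_gt.Db
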