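import Pool.Agent.Lib.MP_f9875e_gt.DbBase

/-! Countably compact, first countable, locally small index spaces of every size below the first
singular cardinal. -/

open Set Filter Cardinal

namespace Pool.Agent.Lib.MP_f9875e_gt.Db

section

variable {Y T : Type} {w : ℕ → Set Y} {S S' : Set Y}

/-- Some member of the sequence lies inside or outside the set. -/
def Dec (w : ℕ → Set Y) (S : Set Y) : Prop := ∃ i, w i ⊆ S ∨ Disjoint (w i) S

theorem Dec.compl (h : Dec w S) : Dec w Sᶜ := by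
  obtain ⟨i, h | h⟩ := h
  exacts [⟨i, Or.inr (disjoint_compl_right.mono_left h)⟩, ⟨i, Or.inl h.subset_compl_right⟩]

theorem Dec.inter (hw : Antitone w) (h : Dec w S) (h' : Dec w S') : Dec w (S ∩ S') := by
  obtain ⟨i, h | h⟩ := h
  · obtain ⟨j, h' | h'⟩ := h'
    · exact ⟨max i j, Or.inl (subset_inter ((hw (le_max_left _ _)).trans h)
        ((hw (le_max_right _ _)).trans h'))⟩
    · exact ⟨j, Or.inr (h'.mono_right inter_subset_right)⟩
  · exact ⟨i, Or.inr (h.mono_right inter_subset_left)⟩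

theorem Dec.union (hw : Antitone w) (h : Dec w S) (h' : Dec w S') : Dec w (S ∪ S') := by
  have := (h.compl.inter hw h'.compl).compl
  rwa [compl_inter, compl_compl, compl_compl] at this

theorem Dec.biUnion [LinearOrder T] {V : T → Set Y} (hV : Monotone V) {l : Set T}
    (hl : ∀ t : ℕ → T, (∀ i, t i ∈ l) → ∃ ζ ∈ l, ∀ i, t i ≤ ζ) (h : ∀ ζ ∈ l, Dec w (V ζ)) :
    Dec w (⋃ ζ ∈ l, V ζ) := by
  by_contra hn
  have h1 : ∀ i, ∃ ζ ∈ l, ¬ Disjoint (w i) (V ζ) := fun i => by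
    by_contra h2
    push Not at h2
    exact hn ⟨i, Or.inr (disjoint_iUnion₂_right.2 h2)⟩
  choose t ht ht' using h1
  obtain ⟨ζ, h2, h3⟩ := hl t ht
  obtain ⟨i, h4 | h4⟩ := h ζ h2
  · exact hn ⟨i, Or.inl (h4.trans (subset_biUnion_of_mem (u := V) h2))⟩
  · exact ht' i (h4.mono_right (hV (h3 i)))

end

/-- An index space. -/
structure Frame {K : Type} [LinearOrder K] (U : K → ℕ → Set K) (μ : Cardinal.{0}) : Prop where
  self : ∀ c k, c ∈ U c k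
  anti : ∀ c, Antitone (U c)
  le : ∀ c, ∀ a ∈ U c 0, a ≤ c
  dec : ∀ c k a, Dec (U a) (U c k)
  clu : ∀ s : ℕ → K, ∃ c, ∀ k, ∃ᶠ i in atTop, s i ∈ U c k
  cc : ∀ A : Set K, A.Countable → (cl U Set.univ A).Countable
  card : ∀ c, #(U c 0) ≤ μ

variable {K T : Type} [LinearOrder K] [LinearOrder T]

/-- First coordinate. -/
def p (y : K ×ₗ T) : K := (ofLex y).1

/-- Second coordinate. -/
def q (y : K ×ₗ T) : T := (ofLex y).2

omit [LinearOrder K] [LinearOrder T] in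
theorem pq_ext {y z : K ×ₗ T} (h : p y = p z) (h' : q y = q z) : y = z :=
  ofLex.injective (Prod.ext h h')

theorem le_pq {y z : K ×ₗ T} : y ≤ z ↔ p y < p z ∨ p y = p z ∧ q y ≤ q z := Prod.Lex.le_iff

theorem lt_pq {y z : K ×ₗ T} : y < z ↔ p y < p z ∨ p y = p z ∧ q y < q z := Prod.Lex.lt_iff

omit [LinearOrder K] [LinearOrder T] in
theorem card_pre {A : Set K} {B : Set T} {ν : Cardinal.{0}} (hν : ℵ₀ ≤ ν) (hA : #A ≤ ν)
    (hB : #B ≤ ν) : #{y : K ×ₗ T | p y ∈ A ∧ q y ∈ B} ≤ ν := by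
  refine le_trans (mk_le_of_injective (f := fun y => ((⟨_, y.2.1⟩, ⟨_, y.2.2⟩) : A × B))
    fun y z h => Subtype.ext (pq_ext (congrArg (·.1.1) h) (congrArg (·.2.1) h))) ?_
  rw [mk_prod, lift_id, lift_id]
  exact (mul_le_mul' hA hB).trans (mul_eq_self hν).le

/-- The closed cone. -/
def V (d : T → Set (K ×ₗ T)) (a : K) (η : T) : Set (K ×ₗ T) := d η ∪ {y | p y = a ∧ q y ≤ η}

/-- The neighbourhoods in the refined space. -/
def W (U : K → ℕ → Set K) (lam : T → ℕ → Set T) (Z : K → T → Set (K ×ₗ T)) (y : K ×ₗ T)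
    (k : ℕ) : Set (K ×ₗ T) :=
  V (Z (p y)) (p y) (q y) ∩ (⋃ ζ ∈ lam (q y) k, V (Z (p y)) (p y) ζ)ᶜ ∩ p ⁻¹' U (p y) k

/-- The filtration at the block `c`. -/
structure Fil (U : K → ℕ → Set K) (lam : T → ℕ → Set T) (μ : Cardinal.{0}) (c : K)
    (Z : K → T → Set (K ×ₗ T)) (d : T → Set (K ×ₗ T)) : Prop where
  mono : Monotone d
  lt : ∀ ξ, ∀ z ∈ d ξ, p z < c
  card : ∀ ξ, #(d ξ) ≤ μ
  cov : ∀ z, p z ∈ U c 0 → p z < c → ∃ ξ, z ∈ d ξ
  dec : ∀ ξ y, p y < c → Dec (W U lam Z y) (d ξ)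

omit [LinearOrder K] in
theorem V_mono {d : T → Set (K ×ₗ T)} (hd : Monotone d) (a : K) : Monotone (V d a) :=
  fun _ _ h => union_subset_union (hd h) fun _ hy => ⟨hy.1, hy.2.trans h⟩

variable {U : K → ℕ → Set K} {lam : T → ℕ → Set T} {Z : K → T → Set (K ×ₗ T)}
  {μ ν : Cardinal.{0}}

theorem W_anti (F : Frame U ν) (l1 : ∀ η, Monotone (lam η)) (y : K ×ₗ T) :
    Antitone (W U lam Z y) := fun _ _ h =>
  inter_subset_inter (inter_subset_inter_right _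
    (compl_subset_compl.2 (biUnion_subset_biUnion_left (l1 _ h)))) (preimage_mono (F.anti _ h))

theorem W_le (F : Frame U ν) {y z : K ×ₗ T} {k : ℕ} (h : z ∈ W U lam Z y k) : p z ≤ p y :=
  F.le _ _ (F.anti _ (Nat.zero_le k) h.2)

omit [LinearOrder K] in
theorem W_card (hμ : ℵ₀ ≤ μ) (L : Long T μ) {y : K ×ₗ T} (h : ∀ ξ, #(Z (p y) ξ) ≤ μ) :
    #(W U lam Z y 0) ≤ μ :=
  (mk_le_mk_of_subset (inter_subset_left.trans inter_subset_left)).trans (mk_union_le' hμ (h _)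
    (card_pre (A := {p y}) hμ ((mk_singleton _).le.trans (one_le_aleph0.trans hμ)) (L.ini _)))

theorem W_cc [WellFoundedLT T] (F : Frame U ν)
    (l3 : ∀ η, ∀ ζ < η, ∃ k, ∃ ζ' ∈ lam η k, ζ ≤ ζ') {Q : Set K}
    (hQ : ∀ a ∈ Q, Monotone (Z a)) (A : Set (K ×ₗ T)) (hA : A.Countable) :
    (cl (W U lam Z) (p ⁻¹' Q) A).Countable := by
  have h1 := (F.cc _ (hA.image p)).mono (inter_subset_left (t := Q))
  refine (h1.biUnion fun a ha => (countable_lub hA (fun z => {ζ | z ∈ V (Z a) a ζ})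
    fun z _ _ h hz => V_mono (hQ a ha.2) a h hz).image fun η => toLex (a, η)).mono fun y hy => ?_
  refine mem_biUnion (x := p y) ⟨⟨trivial, fun k => ?_⟩, hy.1⟩ ⟨q y, fun ζ hζ => ?_, rfl⟩
  · obtain ⟨z, h2, h3⟩ := hy.2 k
    exact ⟨p z, h2.2, mem_image_of_mem p h3⟩
  · obtain ⟨k, ζ', h2, h3⟩ := l3 _ ζ hζ
    obtain ⟨z, h4, h5⟩ := hy.2 k
    exact ⟨z, h5, h4.1.1, fun h6 => h4.1.2 (mem_biUnion h2 (V_mono (hQ _ hy.1) _ h3 h6))⟩

theorem exists_fil [WellFoundedLT T] {m : ℕ} (L : Long T (al (m + 1)))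
    (F : Frame U (Order.succ (al (m + 1))))
    (l3 : ∀ η, ∀ ζ < η, ∃ k, ∃ ζ' ∈ lam η k, ζ ≤ ζ') (c : K)
    (h : ∀ a < c, Fil U lam (al (m + 1)) a Z (Z a)) : ∃ d, Fil U lam (al (m + 1)) c Z d := by
  obtain ⟨S, s1, s2, s3, s4⟩ := L.filt (X := {y : K ×ₗ T | p y ∈ U c 0 ∩ Iio c ∧ q y ∈ Set.univ})
    (card_pre (al_inf (m + 2)) ((mk_le_mk_of_subset inter_subset_left).trans (F.card c))
      (mk_univ.trans L.card).le)
  let G : Set (K ×ₗ T) → Prop := fun H => (∀ y ∈ H, y ∈ p ⁻¹' Iio c → W U lam Z y 0 ⊆ H) ∧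
    cl (W U lam Z) (p ⁻¹' Iio c) H ⊆ H
  refine ⟨fun ξ => {y | ∀ H, S ξ ⊆ H → G H → y ∈ H},
    fun a b hab y hy H h1 h2 => hy H ((s1 hab).trans h1) h2, fun ξ z hz => ?_, fun ξ => ?_,
    fun z h1 h2 => ?_, fun ξ y hy => ?_⟩
  · exact hz (p ⁻¹' Iio c) (fun y hy => (s2 ξ hy).1.2)
      ⟨fun y hy _ z hz => (W_le F hz).trans_lt hy, fun y hy => hy.1⟩
  · obtain ⟨H, h1, h2, h3⟩ := small_hull (W U lam Z) (p ⁻¹' Iio c) m
      (fun y hy => W_card (al_inf _) L (h _ hy).card)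
      (W_cc F l3 fun a ha => (h a ha).mono) (s3 ξ)
    exact le_trans (mk_le_mk_of_subset fun y hy => hy H h1 h3) h2
  · obtain ⟨ξ, hξ⟩ := s4 z ⟨⟨h1, h2⟩, trivial⟩
    exact ⟨ξ, fun H h3 _ => h3 hξ⟩
  · by_cases h1 : ∀ H, S ξ ⊆ H → G H → y ∈ H
    · exact ⟨0, Or.inl fun z hz H h2 h3 => h3.1 y (h1 H h2 h3) hy hz⟩
    · push Not at h1
      obtain ⟨H, h2, h3, h4⟩ := h1
      by_contra h5
      refine h4 (h3.2 ⟨hy, fun k => ?_⟩)
      by_contra h6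
      exact h5 ⟨k, Or.inr (disjoint_left.2 fun z h7 h8 => h6 ⟨z, h7, h8 H h2 h3⟩)⟩

theorem reduce [WellFoundedLT K] [WellFoundedLT T] {m : ℕ} (L : Long T (al (m + 1)))
    (F : Frame U (Order.succ (al (m + 1)))) :
    ∃ U' : K ×ₗ T → ℕ → Set (K ×ₗ T), Frame U' (al (m + 1)) := by
  obtain ⟨lam, l1, l2, l3, l4⟩ := exists_ladder T
  obtain ⟨Z, hZ⟩ := wf_choice (Fil U lam (al (m + 1)))
    (fun c Z Z' d h h' => ⟨h'.mono, h'.lt, h'.card, h'.cov, fun ξ y hy => by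
      have := h'.dec ξ y hy
      unfold W at this ⊢
      rwa [← h _ hy]⟩) fun c Z h => exists_fil L F l3 c h
  have hV : ∀ a, Monotone (V (Z a) a) := fun a => V_mono (hZ a).mono a
  have hA := W_anti (Z := Z) F l1
  refine ⟨W U lam Z, fun y k => ⟨⟨Or.inr ⟨rfl, le_rfl⟩, fun h => ?_⟩, F.self _ _⟩, hA,
    fun y z hz => ?_, fun x k y => ?_, fun s => ?_,
    W_cc (Q := Set.univ) F l3 fun a _ => (hZ a).mono,
    fun y => W_card (al_inf _) L (hZ _).card⟩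
  · obtain ⟨ζ, h1, h2 | h2⟩ := mem_iUnion₂.1 h
    exacts [((hZ _).lt _ _ h2).false, h2.2.not_gt (l2 _ _ _ h1)]
  · rcases hz.1.1 with h | h
    exacts [le_pq.2 (Or.inl ((hZ _).lt _ _ h)), le_pq.2 (Or.inr h)]
  · obtain ⟨i, h | h⟩ := F.dec (p x) k (p y)
    · have h1 : p y ≤ p x := F.le _ _ (F.anti _ (Nat.zero_le k) (h (F.self _ _)))
      have h2 : ∀ ζ, Dec (W U lam Z y) (V (Z (p x)) (p x) ζ) := fun ζ => by
        rcases h1.lt_or_eq with h1 | h1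
        · exact ((hZ _).dec ζ y h1).union (hA y) ⟨0, Or.inr (disjoint_left.2 fun z h3 h4 =>
            ((W_le F h3).trans_lt h1).ne h4.1)⟩
        · rw [← h1]
          rcases le_or_gt (q y) ζ with h3 | h3
          · exact ⟨0, Or.inl fun z hz => hV _ h3 hz.1.1⟩
          · obtain ⟨j, ζ', h4, h5⟩ := l3 _ ζ h3
            exact ⟨j, Or.inr (disjoint_left.2 fun z h6 h7 =>
              h6.1.2 (mem_biUnion h4 (hV _ h5 h7)))⟩
      exact ((h2 _).inter (hA y) (Dec.biUnion (hV _) (l4 _ _) fun ζ _ => h2 ζ).compl).inter (hA y)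
        ⟨i, Or.inl fun z hz => h hz.2⟩
    · exact ⟨i, Or.inr (disjoint_left.2 fun z h1 h2 => disjoint_left.1 h h1.2 h2.2)⟩
  · obtain ⟨c, hc⟩ := F.clu fun i => p (s i)
    have h1 : ∀ i, ∃ η, p (s i) ∈ U c 0 → s i ∈ V (Z c) c η := fun i => by
      by_cases h : p (s i) ∈ U c 0 ∧ p (s i) < c
      · obtain ⟨ξ, hξ⟩ := (hZ c).cov _ h.1 h.2
        exact ⟨ξ, fun _ => Or.inl hξ⟩
      · exact ⟨q (s i), fun h' => Or.inr
          ⟨(F.le _ _ h').eq_of_not_lt fun h2 => h ⟨h', h2⟩, le_rfl⟩⟩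
    choose t ht using h1
    obtain ⟨γ, hγ⟩ := L.bd t
    obtain ⟨η, h2, h3⟩ := wellFounded_lt.has_min
      {η | ∀ k, ∃ᶠ i in atTop, s i ∈ V (Z c) c η ∧ p (s i) ∈ U c k}
      ⟨γ, fun k => (hc k).mono fun i hi =>
        ⟨hV c (hγ i).le (ht i (F.anti c (Nat.zero_le k) hi)), hi⟩⟩
    refine ⟨toLex (c, η), fun k => ?_⟩
    change ∃ᶠ i in atTop, s i ∈ V (Z c) c η ∩ (⋃ ζ ∈ lam η k, V (Z c) c ζ)ᶜ ∩ p ⁻¹' U c k
    rcases (lam η k).eq_empty_or_nonempty with h4 | ⟨ζ₀, h4⟩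
    · exact (h2 k).mono fun i hi => ⟨⟨hi.1, by simp [h4]⟩, hi.2⟩
    have h5 : ∀ i, ∃ ζ ∈ lam η k, s i ∈ ⋃ ζ ∈ lam η k, V (Z c) c ζ → s i ∈ V (Z c) c ζ := by
      intro i
      by_cases h : s i ∈ ⋃ ζ ∈ lam η k, V (Z c) c ζ
      · obtain ⟨ζ, h6, h7⟩ := mem_iUnion₂.1 h
        exact ⟨ζ, h6, fun _ => h7⟩
      · exact ⟨ζ₀, h4, fun h' => absurd h' h⟩
    choose r r1 r2 using h5
    obtain ⟨ζ, h6, h7⟩ := l4 η k r r1
    have h8 : ¬ ∀ k, ∃ᶠ i in atTop, s i ∈ V (Z c) c ζ ∧ p (s i) ∈ U c k :=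
      fun h => h3 ζ h (l2 _ _ _ h6)
    obtain ⟨k', h9⟩ := not_forall.1 h8
    refine ((h2 (max k k')).and_eventually (not_frequently.1 h9)).mono fun i hi => ?_
    exact ⟨⟨hi.1.1, fun h => hi.2 ⟨hV c (h7 i) (r2 i h), F.anti c (le_max_right _ _) hi.1.2⟩⟩,
      F.anti c (le_max_left _ _) hi.1.2⟩

theorem exists_frame (n : ℕ) : ∀ m : ℕ, ∃ (K : Type) (_ : LinearOrder K) (_ : WellFoundedLT K)
    (U : K → ℕ → Set K), Frame U (al (m + 1)) ∧ Nonempty K ∧ ∀ j, j < n → al (m + 2 + j) ≤ #K := by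
  induction n with
  | zero =>
    exact fun m => ⟨Unit, inferInstance, inferInstance, fun _ _ => Set.univ,
      ⟨fun _ _ => trivial, fun _ => antitone_const, fun _ _ _ => le_rfl,
        fun _ _ _ => ⟨0, Or.inl subset_rfl⟩, fun _ => ⟨(), fun _ => .of_forall fun _ => trivial⟩,
        fun _ _ => to_countable _, fun _ => (to_countable _).le_aleph0.trans (al_inf _)⟩,
      inferInstance, fun j hj => absurd hj j.not_lt_zero⟩
  | succ n ih =>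
    intro m
    obtain ⟨K, _, _, U, F, ⟨c⟩, h⟩ := ih (m + 1)
    have L := long_succ (al_inf (m + 1))
    obtain ⟨U', F'⟩ := reduce L F
    obtain ⟨t⟩ := L.ne
    refine ⟨_, inferInstance, inferInstance, U', F', ⟨toLex (c, t)⟩, fun j hj => ?_⟩
    rcases j with _ | j
    · exact L.card.ge.trans (mk_le_of_injective (f := fun η => toLex (c, η))
        fun _ _ e => congrArg q e)
    · rw [show m + 2 + (j + 1) = m + 1 + 2 + j by ring]
      exact (h j (by omega)).trans (mk_le_of_injective (f := fun a => toLex (a, t))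
        fun _ _ e => congrArg p e)

end Pool.Agent.Lib.MP_f9875e_gt.Db
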