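import Pool.Agent.Lib.MP_f9875e_gt.DbBase

/-! The parametrized diamond principle for the bounding number, read on arbitrary bits. -/

open Set Filter Cardinal

namespace Pool.Agent.Lib.MP_f9875e_gt.Db

/-- The guessing principle on the order `T`. -/
def Dia (T : Type) [LinearOrder T] : Prop :=
  ∀ F : (α : T) → (Iio α → Bool) → ℕ → ℕ, (∀ α, Measurable (F α)) →
    ∃ g : T → ℕ → ℕ, ∀ f : T → Bool,
      IsStationary {α | ¬ ∀ᶠ n in atTop, g α n ≤ F α (fun β => f β) n}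

variable {T Y : Type} [LinearOrder T] [WellFoundedLT T]

theorem club (L : Long T ℵ₀) {D : Set Y} {ht : Y → T}
    (hc : ∀ α, {w | w ∈ D ∧ ht w < α}.Countable) (code : Y → T) (β : T) :
    IsClub {α | β < α ∧ ∀ w ∈ D, ht w < α → code w < α} := by
  refine ⟨fun d hd ⟨a₀, h0⟩ _ a ha => ⟨(hd h0).1.trans_le (ha.1 h0), fun w hw h => ?_⟩,
    fun a => ?_⟩
  · obtain ⟨b, h1, h2⟩ := (lt_isLUB_iff ha).1 h
    exact ((hd h1).2 w hw h2).trans_le (ha.1 h1)
  · choose nx hnx using fun α => L.bdc ((hc α).image code)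
    obtain ⟨a₀, h0⟩ := L.bdc ((countable_singleton a).insert β)
    obtain ⟨γ, hγ⟩ := L.bd fun n => nx^[n] a₀
    obtain ⟨b, h1, h2⟩ := wellFounded_lt.has_min (upperBounds (range fun n => nx^[n] a₀))
      ⟨γ, by rintro _ ⟨n, rfl⟩; exact (hγ n).le⟩
    have h3 : IsLUB (range fun n => nx^[n] a₀) b := ⟨h1, fun c hc => le_of_not_gt (h2 c hc)⟩
    have h4 : a₀ ≤ b := h1 ⟨0, rfl⟩
    refine ⟨b, ⟨(h0 β (Or.inl rfl)).trans_le h4, fun w hw h => ?_⟩,
      ((h0 a (Or.inr rfl)).trans_le h4).le⟩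
    obtain ⟨_, ⟨n, rfl⟩, h5⟩ := (lt_isLUB_iff h3).1 h
    exact (hnx _ _ (mem_image_of_mem code ⟨hw, h5⟩)).trans_le
      (h1 ⟨n + 1, Function.iterate_succ_apply' _ _ _⟩)

theorem guess0 (L : Long T ℵ₀) (hd : Dia T) {D : Set Y} (hD : #D ≤ Order.succ ℵ₀) {ht : Y → T}
    (hc : ∀ α, {w | w ∈ D ∧ ht w < α}.Countable) (F : T → (Y → Bool) → ℕ → ℕ)
    (hm : ∀ α, Measurable (F α))
    (hl : ∀ α f f', (∀ w ∈ D, ht w < α → f w = f' w) → F α f = F α f') :
    ∃ g : T → ℕ → ℕ, ∀ f β, ∃ α, β < α ∧ ∃ᶠ n in atTop, F α f n < g α n := by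
  classical
  obtain ⟨ι⟩ : Nonempty (D ↪ T) := (Cardinal.le_def _ _).1 (hD.trans L.card.ge)
  obtain ⟨t₀⟩ := L.ne
  let code : Y → T := fun w => if h : w ∈ D then ι ⟨w, h⟩ else t₀
  have hi : ∀ w ∈ D, ∀ w' ∈ D, code w = code w' → w = w' := fun w h w' h' e => by
    simp only [code, dif_pos h, dif_pos h'] at e
    exact congrArg Subtype.val (ι.injective e)
  obtain ⟨g, hg⟩ := hd (fun α t => F α fun w => if h : code w < α then t ⟨code w, h⟩ else false)
    fun α => (hm α).comp (measurable_pi_lambda _ fun w => by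
      split_ifs with h
      exacts [measurable_pi_apply _, measurable_const])
  refine ⟨g, fun f β => ?_⟩
  obtain ⟨α, h1, h2, h3⟩ := hg (fun τ => decide (∃ w ∈ D, code w = τ ∧ f w = true))
    (club L hc code β)
  refine ⟨α, h2, ?_⟩
  rw [mem_ofPred_eq, hl α _ f fun w hw h => ?_] at h1
  · simpa only [not_eventually, not_le] using h1
  · rw [dif_pos (h3 w hw h), Bool.eq_iff_iff, decide_eq_true_iff]
    exact ⟨fun ⟨w', a1, a2, a3⟩ => hi w' a1 w hw a2 ▸ a3, fun a => ⟨w, hw, rfl, a⟩⟩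

/-- The `i`-th point is a point of `S` beyond the first `j` obstacles. -/
def Q (A : ℕ → Prop) (e : ℕ → Y) (P : Y → ℕ → Prop) (S : Set Y) (M : Y → Set Y) (j i : ℕ) : Prop :=
  A i ∧ e i ∈ S ∧ P (e i) j ∧ ∀ m < j, A m → e i ∉ M (e m)

theorem guess (L : Long T ℵ₀) (hd : Dia T) {Ω : Set Y} (hΩ : #Ω ≤ Order.succ ℵ₀) {ht : Y → T}
    (hc : ∀ α, {w | w ∈ Ω ∧ ht w < α}.Countable) (e : T → ℕ → Y) (P : Y → ℕ → Prop) :
    ∃ g : T → ℕ → ℕ, ∀ (S : Set Y) (M : Y → Set Y) β, ∃ α, β < α ∧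
      ((∀ j, ∃ i, Q (fun i => e α i ∈ Ω ∧ ht (e α i) < α) (e α) P S M j i) →
        ∃ᶠ j in atTop, ∃ i ≤ g α j, Q (fun i => e α i ∈ Ω ∧ ht (e α i) < α) (e α) P S M j i) := by
  classical
  let A : T → ℕ → Prop := fun α i => e α i ∈ Ω ∧ ht (e α i) < α
  let R : T → (Y × Y × Bool → Bool) → ℕ → ℕ → Prop := fun α f j i =>
    A α i ∧ f (e α i, e α i, true) = true ∧ P (e α i) j ∧
      ∀ m < j, A α m → f (e α m, e α i, false) = false
  have hR : ∀ α j i, Measurable fun f => R α f j i := fun α j i =>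
    measurable_const.and (((measurable_pi_apply _).eq_const _).and (measurable_const.and
      (Measurable.forall fun m => measurable_const.imp (measurable_const.imp
        ((measurable_pi_apply _).eq_const _)))))
  have hex : ∀ α f j, ∃ i, R α f j i ∨ ¬ ∃ i, R α f j i := fun α f j => by
    by_cases h : ∃ i, R α f j i
    exacts [h.imp fun _ => Or.inl, ⟨0, Or.inr h⟩]
  have h1 : ℵ₀ ≤ Order.succ ℵ₀ := Order.le_succ _
  obtain ⟨g, hg⟩ := guess0 L hd (D := Ω ×ˢ Ω ×ˢ (Set.univ : Set Bool))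
    (ht := fun w => max (ht w.1) (ht w.2.1))
    (by
      rw [mk_setProd, mk_setProd]
      exact (mul_le_mul' hΩ ((mul_le_mul' hΩ ((to_countable _).le_aleph0.trans h1)).trans
        (mul_eq_self h1).le)).trans (mul_eq_self h1).le)
    (fun α => Set.Countable.mono (fun w hw => by
      exact ⟨⟨hw.1.1, (max_lt_iff.1 hw.2).1⟩, ⟨hw.1.2.1, (max_lt_iff.1 hw.2).2⟩, trivial⟩)
      ((hc α).prod ((hc α).prod (to_countable (Set.univ : Set Bool)))))
    (fun α f j => Nat.find (hex α f j))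
    (fun α => measurable_pi_lambda _ fun j => measurable_find _ fun k => measurableSet_setOfPred.2
      ((hR α j k).or (Measurable.exists (hR α j)).not))
    (fun α f f' h => by
      have h2 : R α f = R α f' := by
        ext j i
        refine and_congr_right fun a => ?_
        rw [h _ ⟨a.1, a.1, trivial⟩ (max_lt a.2 a.2)]
        refine and_congr_right fun _ => and_congr_right fun _ => forall₂_congr fun m _ =>
          forall_congr' fun b => ?_
        rw [h _ ⟨b.1, a.1, trivial⟩ (max_lt b.2 a.2)]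
      exact funext fun j => Nat.find_congr' (by rw [h2]))
  refine ⟨g, fun S M β => ?_⟩
  obtain ⟨f, h5⟩ : ∃ f, ∀ α j i, R α f j i ↔ Q (A α) (e α) P S M j i :=
    ⟨fun w => if w.2.2 then decide (w.1 ∈ S) else decide (w.2.1 ∈ M w.1),
      fun α j i => by simp [R, Q]⟩
  obtain ⟨α, h2, h3⟩ := hg f β
  exact ⟨α, h2, fun h4 => h3.mono fun j hj => ⟨_, hj.le, (h5 _ _ _).1
    ((Nat.find_spec (hex α f j)).resolve_right fun h => h ((h4 j).imp fun i => (h5 α j i).2))⟩⟩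

end Pool.Agent.Lib.MP_f9875e_gt.Db
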