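import Pool.Agent.Lib.MP_f9875e_gt.DbFrame
import Pool.Agent.Lib.MP_f9875e_gt.DbGuess

/-! A saturated system over an index space, from the guessing principle. -/

open Set Filter Cardinal

namespace Pool.Agent.Lib.MP_f9875e_gt.Db

theorem inv_lower {Y H : Type} [LinearOrder H] [LinearOrder Y] [WellFoundedLT Y] {h : Y → H}
    {N : Y → ℕ → Set Y} {ρ : Y → ℕ} {D : Set Y} (hD : IsLowerSet D) (hs : ∀ x ∈ D,
      (∃ s n f, Good h (Iio x) N ρ (h x) s n f ∧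
        (∀ j, N x j = insert x (⋃ k ≥ j, N (s k) (f k))) ∧ ρ x = n + 1) ∨ ∀ j, N x j = {x}) :
    Inv h D N ρ := by
  have aux : ∀ E : Set Y, IsLowerSet E →
      (∀ y ∈ E, Pt h (Iic y) N ρ y ∧ ∀ z < y, Sep N y z ∧ Sep N z y) → Inv h E N ρ := by
    intro E hE ih
    refine ⟨fun y hy => (ih y hy).1.of_subset fun z hz => hE hz hy, fun y hy z hz => ?_⟩
    rcases lt_trichotomy y z with h1 | rfl | h1
    · exact ((ih z hz).2 y h1).2
    · exact (ih y hy).1.sep_self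
    · exact ((ih y hy).2 z h1).1
  refine aux D hD fun x => ?_
  induction x using WellFoundedLT.induction with
  | _ x ih =>
    intro hx
    have I := aux _ (isLowerSet_Iio x) fun y hy => ih y hy (hD (le_of_lt hy) hx)
    rw [← Iio_insert]
    rcases hs x hx with ⟨s, n, f, G, h1, h2⟩ | h1
    · exact step_lim I (lt_irrefl x) G h1 h2
    · exact step_iso I (lt_irrefl x) h1

variable {K T : Type} [LinearOrder K] [LinearOrder T]

/-- The points with the same first two coordinates. -/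
def sib (x : K ×ₗ T ×ₗ ℕ) (m : ℕ) : K ×ₗ T ×ₗ ℕ := toLex (p x, toLex (p (q x), m))

theorem sib_lt {x : K ×ₗ T ×ₗ ℕ} {m : ℕ} (h : m < q (q x)) : sib x m < x :=
  lt_pq.2 (Or.inr ⟨rfl, lt_pq.2 (Or.inr ⟨rfl, h⟩)⟩)

variable (U : K → ℕ → Set K) (A : K → T → ℕ → Prop) (e : K → T → ℕ → K ×ₗ T ×ₗ ℕ)
  (g : K → T → ℕ → ℕ)

/-- The points that have to converge to `x`. -/
def Cand (x : K ×ₗ T ×ₗ ℕ) (N : K ×ₗ T ×ₗ ℕ → ℕ → Set (K ×ₗ T ×ₗ ℕ)) (ρ : K ×ₗ T ×ₗ ℕ → ℕ) :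
    Set (K ×ₗ T ×ₗ ℕ) :=
  {y | ρ y ≤ q (q x) ∧ (∀ m < q (q x), y ∉ N (sib x m) 0) ∧ ∃ j, ∃ i ≤ g (p x) (p (q x)) j,
    e (p x) (p (q x)) i = y ∧ Q (A (p x) (p (q x))) (e (p x) (p (q x)))
      (fun y j => p y ∈ U (p x) j) Set.univ (fun z => N z 0) j i}

/-- One step of the construction. -/
def Step (x : K ×ₗ T ×ₗ ℕ) (Z : K ×ₗ T ×ₗ ℕ → (ℕ → Set (K ×ₗ T ×ₗ ℕ)) × ℕ)
    (d : (ℕ → Set (K ×ₗ T ×ₗ ℕ)) × ℕ) : Prop :=
  (∃ s f, Good (fun _ => ()) (Iio x) (fun y => (Z y).1) (fun y => (Z y).2) () s (q (q x)) f ∧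
    (∀ j, d.1 j = insert x (⋃ k ≥ j, (Z (s k)).1 (f k))) ∧ d.2 = q (q x) + 1 ∧
    Cand U A e g x (fun y => (Z y).1) (fun y => (Z y).2) ⊆ range s ∧
    (∀ j, ∃ i, ∀ k ≥ i, (Z (s k)).1 (f k) ⊆ p ⁻¹' U (p x) j) ∧
    ∀ k, (Z (s k)).1 (f k) ⊆ p ⁻¹' U (p x) 0) ∨
  ((Cand U A e g x (fun y => (Z y).1) (fun y => (Z y).2)).Finite ∧ ∀ j, d.1 j = {x})

variable {U A e g} {ν : Cardinal.{0}} {x : K ×ₗ T ×ₗ ℕ}
  {Z Z' : K ×ₗ T ×ₗ ℕ → (ℕ → Set (K ×ₗ T ×ₗ ℕ)) × ℕ}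

theorem cand_loc (hA : ∀ i, A (p x) (p (q x)) i → e (p x) (p (q x)) i < x)
    (h : ∀ a < x, Z a = Z' a) : Cand U A e g x (fun y => (Z' y).1) (fun y => (Z' y).2) ⊆
      Cand U A e g x (fun y => (Z y).1) (fun y => (Z y).2) := by
  rintro _ ⟨h1, h2, j, i, h3, rfl, h4, h5, h6, h7⟩
  refine ⟨?_, fun m hm => ?_, j, i, h3, rfl, h4, h5, h6, fun m hm ha => ?_⟩ <;> dsimp only
  · rwa [h _ (hA i h4)]
  · rw [h _ (sib_lt hm)]
    exact h2 m hm
  · rw [h _ (hA m ha)]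
    exact h7 m hm ha

theorem step_loc (hA : ∀ i, A (p x) (p (q x)) i → e (p x) (p (q x)) i < x) {d}
    (h : ∀ a < x, Z a = Z' a) (hs : Step U A e g x Z d) : Step U A e g x Z' d := by
  rcases hs with ⟨s, f, G, h1, h2, h3, h4, h5⟩ | ⟨h1, h2⟩
  · have h6 : ∀ k, Z' (s k) = Z (s k) := fun k => (h _ (G.mem k)).symm
    exact Or.inl ⟨s, f, G.congr (fun y hy => by rw [h y hy]) (fun y hy => by rw [h y hy]),
      by simpa only [h6] using h1, h2, (cand_loc hA h).trans h3, by simpa only [h6] using h4,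
      by simpa only [h6] using h5⟩
  · exact Or.inr ⟨h1.subset (cand_loc hA h), h2⟩

theorem step_cont (F : Frame U ν) (hs : Step U A e g x Z (Z x)) :
    (∀ j, ∃ i, (Z x).1 i ⊆ p ⁻¹' U (p x) j) ∧ (Z x).1 0 ⊆ p ⁻¹' U (p x) 0 := by
  rcases hs with ⟨s, f, -, h1, -, -, h4, h5⟩ | ⟨-, h2⟩
  · refine ⟨fun j => (h4 j).imp fun i hi => ?_, ?_⟩ <;> rw [h1]
    · exact insert_subset (F.self _ _) (iUnion₂_subset hi)
    · exact insert_subset (F.self _ _) (iUnion₂_subset fun k _ => h5 k)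
  · exact ⟨fun j => ⟨0, by rw [h2]; exact singleton_subset_iff.2 (F.self _ _)⟩,
      by rw [h2]; exact singleton_subset_iff.2 (F.self _ _)⟩

variable [WellFoundedLT K] [WellFoundedLT T]

theorem step_inv {D : Set (K ×ₗ T ×ₗ ℕ)} (hD : IsLowerSet D)
    (hs : ∀ y ∈ D, Step U A e g y Z (Z y)) :
    Inv (fun _ => ()) D (fun y => (Z y).1) (fun y => (Z y).2) :=
  inv_lower hD fun y hy => (hs y hy).imp
    (fun ⟨s, f, G, h1, h2, _⟩ => ⟨s, _, f, G, h1, h2⟩) fun h => h.2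

theorem step_ex (F : Frame U ν) (hA : ∀ i, A (p x) (p (q x)) i → e (p x) (p (q x)) i < x)
    (hE : ∀ y, p y = p x → p (q y) < p (q x) →
      ∃ i, A (p x) (p (q x)) i ∧ e (p x) (p (q x)) i = y)
    (hs : ∀ y < x, Step U A e g y Z (Z y)) : ∃ d, Step U A e g x Z d := by
  by_cases hf : (Cand U A e g x (fun y => (Z y).1) (fun y => (Z y).2)).Finite
  · exact ⟨(fun _ => {x}, 0), Or.inr ⟨hf, fun _ => rfl⟩⟩
  have I := step_inv (isLowerSet_Iio x) hs
  obtain ⟨s, s1, s2⟩ : ∃ s : ℕ → K ×ₗ T ×ₗ ℕ, Function.Injective s ∧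
      range s = Cand U A e g x (fun y => (Z y).1) (fun y => (Z y).2) := by
    obtain ⟨_⟩ := countable_infinite_iff_nonempty_denumerable.1
      ⟨(countable_range (e (p x) (p (q x)))).mono (s₁ := Cand U A e g x _ _)
        fun y ⟨_, _, _, i, _, h, _⟩ => ⟨i, h⟩, hf⟩
    exact ⟨Subtype.val ∘ (Denumerable.eqv _).symm,
      Subtype.val_injective.comp (Equiv.injective _), by
        rw [(Equiv.surjective _).range_comp, Subtype.range_coe]⟩
  have s3 := fun k => s2.le (mem_range_self k)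
  have s4 : ∀ k, s k < x := fun k => by
    obtain ⟨-, -, j, i, -, h, h', -⟩ := s3 k
    exact h ▸ hA i h'
  let Out : ℕ → Set (K ×ₗ T ×ₗ ℕ) → Prop := fun j B =>
    (∀ m < j, A (p x) (p (q x)) m → Disjoint B ((Z (e (p x) (p (q x)) m)).1 0)) ∧
      (∀ m < q (q x), Disjoint B ((Z (sib x m)).1 0)) ∧ B ⊆ p ⁻¹' U (p x) j
  have o1 : ∀ j B B', B ⊆ B' → Out j B' → Out j B := fun j B B' h h' =>
    ⟨fun m a b => (h'.1 m a b).mono_left h, fun m a => (h'.2.1 m a).mono_left h, h.trans h'.2.2⟩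
  have o2 : ∀ j, ∀ z < x, Out j {z} → ∃ i, Out j ((Z z).1 i) := by
    intro j z hz h
    have P := I.pt z hz
    obtain ⟨i1, h1⟩ := exists_small P j (fun m B => A (p x) (p (q x)) m →
      Disjoint B ((Z (e (p x) (p (q x)) m)).1 0)) (fun _ _ _ a b c => (b c).mono_left a)
      fun m hm => by
        by_cases a : A (p x) (p (q x)) m
        · exact ((I.sep _ (hA m a) z hz).cls 0 (disjoint_singleton_left.1 (h.1 m hm a))).imp
            fun _ b _ => b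
        · exact ⟨0, fun b => absurd b a⟩
    obtain ⟨i2, h2⟩ := exists_small P (q (q x)) (fun m B => Disjoint B ((Z (sib x m)).1 0))
      (fun _ _ _ a b => b.mono_left a) fun m hm =>
        (I.sep _ (sib_lt hm) z hz).cls 0 (disjoint_singleton_left.1 (h.2.1 m hm))
    obtain ⟨i3, h3 | h3⟩ := F.dec (p x) j (p z)
    · obtain ⟨i4, h4⟩ := (step_cont F (hs z hz)).1 i3
      have a1 := P.mono (le_max_left i1 (max i2 i4))
      have a2 := P.mono ((le_max_left i2 i4).trans (le_max_right i1 _))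
      have a3 := P.mono ((le_max_right i2 i4).trans (le_max_right i1 _))
      exact ⟨_, fun m a b => (h1 m a b).mono_left a1, fun m a => (h2 m a).mono_left a2,
        a3.trans (h4.trans (preimage_mono h3))⟩
    · exact (disjoint_left.1 h3 (F.self _ _) (h.2.2 rfl)).elim
  have o3 : ∀ j k, (∃ j' < j, ∃ i ≤ g (p x) (p (q x)) j', e (p x) (p (q x)) i = s k) ∨
      Out j {s k} := fun j k => by
    obtain ⟨-, h2, j', i, h3, h4, -, -, h6, h7⟩ := s3 k
    rcases lt_or_ge j' j with h | h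
    · exact Or.inl ⟨j', h, i, h3, h4⟩
    · rw [h4] at h6 h7
      exact Or.inr ⟨fun m a b => disjoint_singleton_left.2 (h7 m (a.trans_le h) b),
        fun m a => disjoint_singleton_left.2 (h2 m a), singleton_subset_iff.2 (F.anti _ h h6)⟩
  choose f hf' using fun k => exists_small (I.pt _ (s4 k)) (k + 1)
    (fun j B => Out j {s k} → Out j B) (fun j B B' a b c => o1 j B B' a (b c)) fun j _ => by
      by_cases a : Out j {s k}
      exacts [(o2 j _ (s4 k) a).imp fun _ b _ => b, ⟨0, fun b => absurd b a⟩]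
  have o4 : ∀ k, Out 0 ((Z (s k)).1 (f k)) := fun k =>
    hf' k 0 k.succ_pos ((o3 0 k).resolve_left fun ⟨_, h, _⟩ => Nat.not_lt_zero _ h)
  have o5 : ∀ j, ∃ i, ∀ k ≥ i, Out j ((Z (s k)).1 (f k)) := fun j => by
    have h1 := (((finite_lt_nat j).biUnion fun j' _ => (finite_le_nat
      (g (p x) (p (q x)) j')).image (e (p x) (p (q x)))).preimage s1.injOn).bddAbove
    obtain ⟨b, hb⟩ := h1
    refine ⟨max j (b + 1), fun k hk => hf' k j (Nat.lt_succ_of_le (le_of_max_le_left hk))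
      ((o3 j k).resolve_left fun ⟨j', a1, i, a2, a3⟩ => ?_)⟩
    exact (le_of_max_le_right hk).not_gt (Nat.lt_succ_of_le (hb (mem_biUnion a1 ⟨i, a2, a3⟩)))
  refine ⟨(fun j => insert x (⋃ k ≥ j, (Z (s k)).1 (f k)), q (q x) + 1), Or.inl ⟨s, f,
    ⟨s4, fun k => (s3 k).1, fun _ => le_rfl, fun y hy => ?_, fun _ h => absurd h (lt_irrefl _)⟩,
    fun _ => rfl, rfl, s2.ge, fun j => (o5 j).imp fun i h k hk => (h k hk).2.2,
    fun k => (o4 k).2.2⟩⟩
  rcases lt_pq.1 hy with h | ⟨h, h'⟩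
  · obtain ⟨j, h1 | h1⟩ := F.dec (p y) 0 (p x)
    · exact absurd (F.le _ _ (h1 (F.self _ _))) h.not_ge
    · exact (o5 j).imp fun i h2 k hk => disjoint_left.2 fun z h3 h4 =>
        disjoint_left.1 h1 ((h2 k hk).2.2 h4) ((step_cont F (hs y hy)).2 h3)
  · rcases lt_pq.1 h' with h1 | ⟨h1, h2⟩
    · obtain ⟨m, h2, rfl⟩ := hE y h h1
      exact (o5 (m + 1)).imp fun i h3 k hk => ((h3 k hk).1 m m.lt_succ_self h2).symm
    · rw [show y = sib x (q (q y)) from pq_ext h (pq_ext h1 rfl)]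
      exact ⟨0, fun k _ => ((o4 k).2.1 _ h2).symm⟩

theorem exists_large [Nonempty K] (L : Long T ℵ₀) (hd : Dia T) (F : Frame U (Order.succ ℵ₀)) :
    ∃ (X : Type) (_ : TopologicalSpace X), CompactSpace X ∧ T2Space X ∧
      (∃ V : X → ℕ → Set X, (∀ x n, x ∈ V x n) ∧ (∀ x n, V x (n + 1) ⊆ V x n) ∧
        (∀ O : Set X, IsOpen O ↔ ∀ x ∈ O, ∃ n, V x n ⊆ O)) ∧ #K ≤ #X := by
  classical
  have := L.ne
  have h1 : ℵ₀ ≤ Order.succ ℵ₀ := Order.le_succ _
  have hΩ : ∀ c, #(p ⁻¹' U c 0 : Set (K ×ₗ T ×ₗ ℕ)) ≤ Order.succ ℵ₀ := fun c =>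
    le_trans (mk_le_mk_of_subset fun y hy => by exact ⟨hy, trivial⟩)
      (card_pre (B := Set.univ) h1 (F.card c) (le_trans
        (mk_le_mk_of_subset fun y _ => by exact ⟨trivial, trivial⟩) (card_pre (A := Set.univ)
          (B := Set.univ) h1 (mk_univ.trans L.card).le ((to_countable _).le_aleph0.trans h1))))
  choose S s1 _ s3 s4 using fun c => L.filt (hΩ c)
  choose! code hcode using s4
  let ht : K → K ×ₗ T ×ₗ ℕ → T := fun c y => if p y = c then p (q y) else code c y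
  have hc : ∀ c α, {w | w ∈ p ⁻¹' U c 0 ∧ ht c w < α}.Countable := fun c α => by
    refine Set.Countable.mono (fun y hy => ?_) ((le_aleph0_iff_set_countable.1 (card_pre (A := {c})
      le_rfl (countable_singleton c).le_aleph0 (card_pre (B := Set.univ) le_rfl (L.ini α)
        (to_countable _).le_aleph0))).union (le_aleph0_iff_set_countable.1 (s3 c α)))
    by_cases h : p y = c
    · exact Or.inl ⟨h, le_of_lt ((if_pos h).symm.trans_lt hy.2), trivial⟩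
    · exact Or.inr (s1 c ((if_neg h).symm.trans_lt hy.2).le (hcode c y hy.1))
  choose e he using fun c α => countable_iff_exists_subset_range.1 (hc c α)
  choose g hg using fun c => guess L hd (hΩ c) (hc c) (e c) fun y j => p y ∈ U c j
  let A : K → T → ℕ → Prop := fun c α i => e c α i ∈ p ⁻¹' U c 0 ∧ ht c (e c α i) < α
  have hA : ∀ (x : K ×ₗ T ×ₗ ℕ) i, A (p x) (p (q x)) i → e (p x) (p (q x)) i < x := by
    intro x i h
    refine lt_pq.2 ((F.le _ _ h.1).lt_or_eq.imp_right fun h2 => ⟨h2, lt_pq.2 (Or.inl ?_)⟩)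
    exact (if_pos h2).symm.trans_lt h.2
  have hE : ∀ c α y, p y ∈ U c 0 → ht c y < α → ∃ i, A c α i ∧ e c α i = y := by
    intro c α y h h'
    obtain ⟨i, rfl⟩ := he c α ⟨h, h'⟩
    exact ⟨i, ⟨h, h'⟩, rfl⟩
  obtain ⟨Z, hZ⟩ := wf_choice (Step U A e g) (fun x _ _ _ => step_loc (hA x))
    fun x Z => step_ex F (hA x) fun y h h' =>
      hE _ _ y (h ▸ F.self _ _) ((if_pos h).trans_lt h')
  have I := step_inv isLowerSet_univ fun y _ => hZ y
  obtain ⟨X, τ, a1, a2, a3, a4⟩ := exists_compactum I (by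
    intro s n _ hρ
    by_contra hn
    push Not at hn
    have hfin : ∀ y, (range s ∩ (Z y).1 0).Finite := fun y => by
      obtain ⟨m, hm⟩ := eventually_atTop.1 (hn y)
      refine ((finite_lt_nat m).image s).subset ?_
      rintro _ ⟨⟨k, rfl⟩, h⟩
      exact ⟨k, lt_of_not_ge fun h' => hm k h' h, rfl⟩
    obtain ⟨c, hc⟩ := F.clu fun k => p (s k)
    obtain ⟨β, hβ⟩ := L.bd fun k => ht c (s k)
    obtain ⟨α, b1, b2⟩ := hg c (range s) (fun z => (Z z).1 0) β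
    replace b2 := b2 fun j => by
      obtain ⟨k, c1, c2⟩ := ((hc j).and_eventually ((eventually_all_finite (finite_lt_nat j)).2
        fun m _ => hn (e c α m))).exists
      obtain ⟨i, c3, c4⟩ := hE c α (s k) (F.anti _ (Nat.zero_le j) c1) ((hβ k).trans b1)
      exact ⟨i, c3, ⟨k, c4.symm⟩, c4 ▸ c1, fun m hm _ => c4 ▸ c2 m hm⟩
    let x : K ×ₗ T ×ₗ ℕ := toLex (c, toLex (α, n))
    have key : ∀ B : Set (K ×ₗ T ×ₗ ℕ), B.Finite → ∃ y ∈ range s, y ∉ B ∧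
        y ∈ Cand U A e g x (fun y => (Z y).1) (fun y => (Z y).2) := by
      intro B hB
      have hB' := hB.union ((finite_lt_nat n).biUnion fun m _ => hfin (sib x m))
      have c1 : ∀ y, ∃ m, (∃ i, A c α i ∧ e c α i = y) → A c α m ∧ e c α m = y := fun y => by
        by_cases h : ∃ i, A c α i ∧ e c α i = y
        exacts [h.imp fun _ a _ => a, ⟨0, fun a => absurd a h⟩]
      choose ix hix using c1
      obtain ⟨b, hb⟩ := (hB'.image ix).bddAbove
      obtain ⟨j, ⟨i, c2, c3, c4, c5, c6⟩, c7⟩ := (b2.and_eventually (eventually_gt_atTop b)).exists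
      have c8 : e c α i ∉ B ∪ ⋃ m ∈ {m | m < n}, range s ∩ (Z (sib x m)).1 0 := fun h => by
        obtain ⟨d1, d2⟩ := hix _ ⟨i, c3, rfl⟩
        refine c6 _ ((hb (mem_image_of_mem ix h)).trans_lt c7) d1 ?_
        rw [d2]
        exact (I.pt _ trivial).self 0
      refine ⟨_, c4, fun h => c8 (Or.inl h), ?_, fun m hm h => c8 (Or.inr (mem_biUnion hm ⟨c4, h⟩)),
        j, i, c2, rfl, c3, trivial, c5, c6⟩
      obtain ⟨k, hk⟩ := c4
      rw [← hk]
      exact hρ k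
    rcases hZ x with ⟨s', f, -, c1, -, c2, -⟩ | ⟨c1, -⟩
    · obtain ⟨y, d1, d2, d3⟩ := key _ (hfin x)
      obtain ⟨k, rfl⟩ := c2 d3
      refine d2 ⟨d1, ?_⟩
      rw [c1]
      exact Or.inr (mem_biUnion (show k ≥ 0 from Nat.zero_le k) ((I.pt _ trivial).self _))
    · obtain ⟨y, -, d2, d3⟩ := key _ c1
      exact d2 d3)
  obtain ⟨t⟩ := L.ne
  exact ⟨X, τ, a1, a2, a3, le_trans (mk_le_of_injective
    (f := fun a => (toLex (a, toLex (t, 0)) : K ×ₗ T ×ₗ ℕ)) fun _ _ h => congrArg p h) a4⟩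

theorem long_omega : Long (Ordinal.omega 1).ToType ℵ₀ := by
  rw [← ord_aleph, ← succ_aleph0]
  exact long_succ le_rfl

theorem main (hd : Dia (Ordinal.omega 1).ToType) (κ : Cardinal.{0}) (hκ : κ < ℵ_ Ordinal.omega0) :
    ∃ (X : Type) (_ : TopologicalSpace X), CompactSpace X ∧ T2Space X ∧
      (∃ V : X → ℕ → Set X, (∀ x n, x ∈ V x n) ∧ (∀ x n, V x (n + 1) ⊆ V x n) ∧
        (∀ O : Set X, IsOpen O ↔ ∀ x ∈ O, ∃ n, V x n ⊆ O)) ∧ κ < #X := by
  obtain ⟨o, h1, h2⟩ := (isNormal_aleph.lt_iff_exists_lt Ordinal.isSuccLimit_omega0).1 hκ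
  obtain ⟨n, rfl⟩ := Ordinal.lt_omega0.1 h1
  obtain ⟨K, _, _, U, F, _, h⟩ := exists_frame (n + 1) 0
  obtain ⟨X, τ, a1, a2, a3, a4⟩ := exists_large long_omega hd F
  refine ⟨X, τ, a1, a2, a3, h2.trans_le (le_trans ?_ ((h n n.lt_succ_self).trans a4))⟩
  rw [al_eq]
  exact aleph_le_aleph.2 (Nat.cast_le.2 (by omega))

end Pool.Agent.Lib.MP_f9875e_gt.Db
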