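import Pool.Agent.Lib.MP_f9875e_gt.H28Cond

/-!
Among continuum-plus many conditions, two with the same label are compatible.
-/

open Set Filter Topology Cardinal

namespace Pool.Agent.Lib.MP_f9875e_gt

theorem mk_Iic_ht (α : Ht) : #(Iic α) ≤ 𝔠 := by
  rw [← Iio_insert]
  refine mk_insert_le.trans ?_
  have h1 : #(Iio α) ≤ 𝔠 := Order.lt_succ_iff.1 (mk_Iio_toType_ord_lt α)
  exact (add_le_add h1 (one_le_aleph0.trans aleph0_le_continuum)).trans continuum_add_self.le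

theorem ht_bound {ι : Type} (hι : #ι ≤ 𝔠) (s : ι → Ht) : ∃ γ, ∀ k, s k < γ := by
  by_contra hc
  push Not at hc
  have h1 : IsCofinal (range s) := fun γ => by
    obtain ⟨k, hk⟩ := hc γ
    exact ⟨s k, mem_range_self k, hk⟩
  have h2 := Order.cof_le h1
  rw [Ordinal.cof_toType, (isRegular_succ aleph0_le_continuum).cof_ord] at h2
  exact (h2.trans (mk_range_le.trans hι)).not_gt (Order.lt_succ _)

theorem ht_bound_set {A : Set Ht} (hA : A.Countable) : ∃ γ, ∀ a ∈ A, a < γ := by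
  have := hA.to_subtype
  obtain ⟨γ, hγ⟩ := ht_bound (ι := A) (mk_le_aleph0.trans aleph0_le_continuum) Subtype.val
  exact ⟨γ, fun a ha => hγ ⟨a, ha⟩⟩

/-- Pressing down. -/
theorem press (A : Ht → Set Ht) (hA : ∀ δ, (A δ).Countable) :
    ∃ γ, ∀ β, ∃ δ, β < δ ∧ ∀ a ∈ A δ, a < δ → a ≤ γ := by
  classical
  by_contra hc
  push Not at hc
  choose b hb using hc
  set W := (ℵ₁ : Cardinal.{0}).ord.ToType
  have hW : ∀ ξ : W, (Iio ξ).Countable := fun ξ => by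
    rw [← le_aleph0_iff_set_countable, ← Order.lt_succ_iff, succ_aleph0]
    exact mk_Iio_toType_ord_lt ξ
  have hbd : ∀ B : Set Ht, ∃ γ, B.Countable → ∀ a ∈ B, a < γ := fun B => by
    by_cases hB : B.Countable
    · obtain ⟨γ, hγ⟩ := ht_bound_set hB
      exact ⟨γ, fun _ => hγ⟩
    · obtain ⟨γ, -⟩ := ht_bound_set countable_empty
      exact ⟨γ, fun h => absurd h hB⟩
  choose u hu using hbd
  let d : W → Ht := (wellFounded_lt (α := W)).fix fun ξ prev =>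
    u (range fun η : Iio ξ => max (prev η.1 η.2) (b (prev η.1 η.2)))
  have hd : ∀ η ξ : W, η < ξ → max (d η) (b (d η)) < d ξ := by
    intro η ξ h
    have e : d ξ = u (range fun η : Iio ξ => max (d η.1) (b (d η.1))) := by
      simp only [d]
      rw [WellFounded.fix_eq]
    rw [e]
    have := (hW ξ).to_subtype
    exact hu _ (countable_range _) _ ⟨⟨η, h⟩, rfl⟩
  have hWb : ∀ s : ℕ → W, ∃ γ, ∀ k, s k < γ := exists_bound (κ := ℵ₁) (by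
    rw [isRegular_aleph_one.cof_ord]
    exact aleph0_lt_aleph_one)
  have hne : {δ | ∀ ξ, d ξ < δ}.Nonempty :=
    ht_bound ((mk_ord_toType _).le.trans aleph_one_le_continuum) d
  obtain ⟨δ, h1, h2⟩ := wellFounded_lt.has_min _ hne
  have h3 : ∀ a < δ, ∃ ξ, a ≤ d ξ := fun a ha => by
    by_contra hc
    push Not at hc
    exact h2 a hc ha
  have : Nonempty W := mk_ne_zero_iff.1 (by rw [mk_ord_toType]; exact (aleph_pos 1).ne')
  choose! x hx using h3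
  obtain ⟨ξ, hξ⟩ : ∃ ξ : W, ∀ a ∈ A δ, x a < ξ := by
    rcases (A δ).eq_empty_or_nonempty with h | h
    · obtain ⟨ξ, -⟩ := hWb fun _ => x δ
      exact ⟨ξ, by simp [h]⟩
    · obtain ⟨e, he⟩ := (hA δ).exists_eq_range h
      obtain ⟨ξ, hξ⟩ := hWb fun k => x (e k)
      refine ⟨ξ, fun a ha => ?_⟩
      rw [he] at ha
      obtain ⟨k, rfl⟩ := ha
      exact hξ k
  obtain ⟨ζ, hζ⟩ := hWb fun _ => ξ
  obtain ⟨a, k1, k2, k3⟩ := hb (d ξ) δ
    (((le_max_right _ _).trans_lt (hd ξ ζ (hζ 0))).trans (h1 ζ))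
  exact k3.not_ge ((hx a k2).trans ((le_max_left _ _).trans (hd _ _ (hξ a k1)).le))

theorem mk_ctbl {T : Type} (hT : #T ≤ 𝔠) : #{t : Set T // t.Countable} ≤ 𝔠 := by
  have h1 := mk_bounded_set_le T ℵ₀
  simp only [le_aleph0_iff_set_countable] at h1
  refine h1.trans ?_
  exact (power_le_power_right (max_le hT aleph0_le_continuum)).trans continuum_power_aleph0.le

theorem chain (q : Ht → Cond) (r : Ht → Set ℕ) :
    ∃ α β, α ≠ β ∧ r α = r β ∧ ∃ s, s ≤ q α ∧ s ≤ q β := by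
  obtain ⟨γ, hγ⟩ := press (fun δ => Prod.fst '' (q δ).D) fun δ => (q δ).cnt.image _
  let L : Type := {x : Pts // x.1 ≤ γ}
  have hS : #(Set ℕ) = 𝔠 := by simp
  have hL : #L ≤ 𝔠 := by
    have h1 : #L ≤ #(Iic γ × Set ℕ) := mk_le_of_injective
      (f := fun x : L => ((⟨x.1.1, x.2⟩ : Iic γ), x.1.2)) fun x y e =>
        Subtype.ext (Prod.ext (congrArg (fun z => z.1.1) e) (congrArg (fun z : Iic γ × Set ℕ => z.2) e))
    refine h1.trans ?_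
    rw [mk_prod, lift_id, lift_id, hS]
    exact (mul_le_mul_left (mk_Iic_ht γ) _).trans continuum_mul_self.le
  have hp : ∀ {A B : Type}, #A ≤ 𝔠 → #B ≤ 𝔠 → #(A × B) ≤ 𝔠 := by
    intro A B hA hB
    rw [mk_prod, lift_id, lift_id]
    exact (mul_le_mul' hA hB).trans continuum_mul_self.le
  have hN : #ℕ ≤ 𝔠 := mk_nat.le.trans aleph0_le_continuum
  let T : Type := {t : Set (L × ℕ × L) // t.Countable} × {t : Set (L × ℕ) // t.Countable} × Set ℕ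
  have hT : #T ≤ 𝔠 := hp (mk_ctbl (hp hL (hp hN hL))) (hp (mk_ctbl (hp hL hN)) hS.le)
  have hc : ∀ δ, {x : L | x.1 ∈ (q δ).D}.Countable := fun δ =>
    (q δ).cnt.preimage Subtype.val_injective
  let τ : Ht → T := fun δ =>
    (⟨{t | t.1.1 ∈ (q δ).D ∧ t.2.2.1 ∈ (q δ).N t.1.1 t.2.1},
      ((hc δ).prod (countable_univ.prod (hc δ))).mono fun t ht => mk_mem_prod ht.1 (mk_mem_prod (mem_univ _)
        (((q δ).inv.pt _ ht.1).sub (((q δ).inv.pt _ ht.1).sub0 _ ht.2)))⟩,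
     ⟨{t | t.1.1 ∈ (q δ).D ∧ (q δ).ρ t.1.1 = t.2},
      ((hc δ).prod countable_univ).mono fun t ht => mk_mem_prod ht.1 (mem_univ _)⟩, r δ)
  have h1 : ∀ t : T, ∃ β, ∀ δ', (∀ a ∈ Prod.fst '' (q δ').D, a < δ' → a ≤ γ) → τ δ' = t →
      ∃ δ, (∀ a ∈ Prod.fst '' (q δ).D, a < δ → a ≤ γ) ∧ τ δ = t ∧ δ < β ∧
        ∀ x ∈ (q δ).D, x.1 < β := by
    intro t
    by_cases ht : ∃ δ, (∀ a ∈ Prod.fst '' (q δ).D, a < δ → a ≤ γ) ∧ τ δ = t
    · obtain ⟨δ, k1, k2⟩ := ht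
      obtain ⟨β, hβ⟩ := ht_bound_set (((q δ).cnt.image Prod.fst).insert δ)
      exact ⟨β, fun _ _ _ => ⟨δ, k1, k2, hβ δ (mem_insert _ _),
        fun x hx => hβ _ (mem_insert_of_mem _ (mem_image_of_mem _ hx))⟩⟩
    · exact ⟨γ, fun δ' k1 k2 => absurd ⟨δ', k1, k2⟩ ht⟩
  choose c hc' using h1
  obtain ⟨β, hβ⟩ := ht_bound hT c
  obtain ⟨δ₂, k1, k2⟩ := hγ β
  obtain ⟨δ₁, -, k4, k5, k6⟩ := hc' (τ δ₂) δ₂ k2 rfl
  have e1 := congrArg (fun t : T => t.1.1) k4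
  have e2 := congrArg (fun t : T => t.2.1.1) k4
  have e3 : r δ₁ = r δ₂ := congrArg (fun t : T => t.2.2) k4
  simp only [τ] at e1 e2
  have f2 : ∀ (x : Pts) (hx : x.1 ≤ γ) n, (x ∈ (q δ₁).D ∧ (q δ₁).ρ x = n) ↔
      (x ∈ (q δ₂).D ∧ (q δ₂).ρ x = n) := fun x hx n => Set.ext_iff.1 e2 (⟨x, hx⟩, n)
  have f1 : ∀ (x : Pts) (hx : x.1 ≤ γ) j (y : Pts) (hy : y.1 ≤ γ),
      (x ∈ (q δ₁).D ∧ y ∈ (q δ₁).N x j) ↔ (x ∈ (q δ₂).D ∧ y ∈ (q δ₂).N x j) :=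
    fun x hx j y hy => Set.ext_iff.1 e1 (⟨x, hx⟩, j, ⟨y, hy⟩)
  have hlt : c (τ δ₂) < δ₂ := (hβ _).trans k1
  refine ⟨δ₁, δ₂, (k5.trans hlt).ne, e3, Cond.amalg (γ := γ) (fun x a b => ?_)
    (fun y a b => ((f2 y b _).2 ⟨a, rfl⟩).1) (fun y a b => ((f2 y b _).1 ⟨a, rfl⟩).1)⟩
  have hx : x.1 ≤ γ := k2 _ (mem_image_of_mem _ b) ((k6 x a).trans hlt)
  refine ⟨hx, ?_, ((f2 x hx _).1 ⟨a, rfl⟩).2.symm⟩
  funext j
  ext y
  constructor
  · intro hy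
    exact ((f1 x hx j y ((((q δ₁).inv.pt x a).hle y
      (((q δ₁).inv.pt x a).sub0 j hy)).trans hx)).1 ⟨a, hy⟩).2
  · intro hy
    exact ((f1 x hx j y ((((q δ₂).inv.pt x b).hle y
      (((q δ₂).inv.pt x b).sub0 j hy)).trans hx)).2 ⟨b, hy⟩).2

end Pool.Agent.Lib.MP_f9875e_gt
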