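import Pool.Agent.Lib.MP_f9875e_gt.H28Rec

/-!
Countable systems as forcing conditions: countable closure, density lemmas and the chain condition.
-/

open Set Filter Topology Cardinal

namespace Pool.Agent.Lib.MP_f9875e_gt

section

variable {Y H : Type} [LinearOrder H] {h : Y → H} {D : Set Y} {N : Y → ℕ → Set Y} {ρ : Y → ℕ}

theorem Pt.congr {x : Y} (p : Pt h D N ρ x) (hx : x ∈ D) {N' : Y → ℕ → Set Y} {ρ' : Y → ℕ}
    (hN : ∀ y ∈ D, N' y = N y) (hρ : ∀ y ∈ D, ρ' y = ρ y) : Pt h D N' ρ' x where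
  self := by rw [hN x hx]; exact p.self
  anti := by rw [hN x hx]; exact p.anti
  sub := by rw [hN x hx]; exact p.sub
  cnt := by rw [hN x hx]; exact p.cnt
  hle := by rw [hN x hx]; exact p.hle
  rlt := by
    rw [hN x hx, hρ x hx]
    intro y hy hne
    rw [hρ y (p.sub hy)]
    exact p.rlt y hy hne
  low := by rw [hN x hx]; exact p.low
  cpt := fun i => by
    obtain ⟨T, h1, h2, h3⟩ := p.cpt i
    refine ⟨T, h1, fun y hy => ⟨(h2 y hy).1, ?_⟩, ?_⟩
    · rw [hρ x hx, hρ y (h2 y hy).1]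
      exact (h2 y hy).2
    · rw [hN x hx]
      refine h3.trans (iUnion₂_mono fun y hy => ?_)
      rw [hN y (h2 y hy).1]

theorem Sep.congr {x y : Y} (p : Sep N x y) {N' : Y → ℕ → Set Y} (hx : N' x = N x)
    (hy : N' y = N y) : Sep N' x y where
  opn := by rw [hx, hy]; exact p.opn
  cls := by rw [hx, hy]; exact p.cls
  hd := by rw [hx]; exact p.hd

theorem Inv.congr (I : Inv h D N ρ) {N' : Y → ℕ → Set Y} {ρ' : Y → ℕ}
    (hN : ∀ y ∈ D, N' y = N y) (hρ : ∀ y ∈ D, ρ' y = ρ y) : Inv h D N' ρ' :=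
  ⟨fun x hx => (I.pt x hx).congr hx hN hρ,
    fun x hx y hy => (I.sep x hx y hy).congr (hN x hx) (hN y hy)⟩

theorem Inv.insert (I : Inv h D N ρ) {x : Y}
    (hx : Pt h (insert x D) N ρ x ∧ ∀ y ∈ D, Sep N x y ∧ Sep N y x) :
    Inv h (insert x D) N ρ := by
  refine ⟨?_, ?_⟩
  · rintro y (rfl | hy)
    · exact hx.1
    · exact (I.pt y hy).of_subset (subset_insert _ _)
  · rintro y (rfl | hy) z (rfl | hz)
    · exact hx.1.sep_self
    · exact (hx.2 z hz).1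
    · exact (hx.2 y hy).2
    · exact I.sep y hy z hz

/-- A sequence meeting a basic set infinitely often has an accumulation point. -/
theorem Inv.exists_acc (I : Inv h D N ρ) (s : ℕ → Y) :
    ∀ y ∈ D, (∃ᶠ k in atTop, s k ∈ N y 0) → ∃ z ∈ D, ∀ i, ∃ᶠ k in atTop, s k ∈ N z i := by
  intro y
  induction hn : ρ y using Nat.strong_induction_on generalizing y with
  | _ n ih =>
    intro hy hs
    by_cases hc : ∀ i, ∃ᶠ k in atTop, s k ∈ N y i
    · exact ⟨y, hy, hc⟩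
    · push Not at hc
      obtain ⟨i, hi⟩ := hc
      obtain ⟨T, h1, h2, h3⟩ := (I.pt y hy).cpt i
      have h4 : ∃ t ∈ T, ∃ᶠ k in atTop, s k ∈ N t 0 := by
        by_contra hc
        push Not at hc
        have h5 := (eventually_all_finite h1).2 hc
        obtain ⟨k, k1, k2, k3⟩ := (hs.and_eventually (hi.and h5)).exists
        obtain ⟨t, ht, ht'⟩ := mem_iUnion₂.1 (h3 ⟨k1, k2⟩)
        exact k3 t ht ht'
      obtain ⟨t, ht, ht'⟩ := h4
      exact ih _ (hn ▸ (h2 t ht).2) t rfl (h2 t ht).1 ht'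

/-- Basic sets are compact. -/
theorem Inv.exists_cover (I : Inv h D N ρ) (i : Y → ℕ) :
    ∀ t ∈ D, ∃ F : Set Y, F.Finite ∧ F ⊆ D ∧ N t 0 ⊆ ⋃ y ∈ F, N y (i y) := by
  intro t
  induction hn : ρ t using Nat.strong_induction_on generalizing t with
  | _ n ih =>
    intro ht
    obtain ⟨T, h1, h2, h3⟩ := (I.pt t ht).cpt (i t)
    choose! F hF using fun u (hu : u ∈ T) => ih _ (hn ▸ (h2 u hu).2) u rfl (h2 u hu).1
    refine ⟨Insert.insert t (⋃ u ∈ T, F u), (h1.biUnion fun u hu => (hF u hu).1).insert t,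
      insert_subset ht (iUnion₂_subset fun u hu => (hF u hu).2.1), fun z hz => ?_⟩
    by_cases hz' : z ∈ N t (i t)
    · exact mem_biUnion (mem_insert _ _) hz'
    · obtain ⟨u, hu, hu'⟩ := mem_iUnion₂.1 (h3 ⟨hz, hz'⟩)
      obtain ⟨y, hy, hy'⟩ := mem_iUnion₂.1 ((hF u hu).2.2 hu')
      exact mem_biUnion (mem_insert_of_mem _ (mem_biUnion hu hy)) hy'

theorem dom_countable {ι : Type} [Countable ι] (F : ι → ℕ → ℕ) :
    ∃ g : ℕ → ℕ, ∀ i, ∃ m, ∀ k ≥ m, F i k ≤ g k := by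
  obtain ⟨e, he⟩ := exists_injective_nat ι
  classical
  have hfin : ∀ k, {i | e i ≤ k}.Finite := fun k =>
    (finite_le_nat k).preimage he.injOn
  refine ⟨fun k => (hfin k).toFinset.sup fun i => F i k, fun i => ⟨e i, fun k hk => ?_⟩⟩
  exact Finset.le_sup (f := fun i => F i k) ((hfin k).mem_toFinset.2 hk)

end

/-- The heights. -/
abbrev Ht : Type := (Order.succ (𝔠 : Cardinal.{0})).ord.ToType

/-- The points. -/
abbrev Pts : Type := Ht × Set ℕ

/-- A condition is a countable system. -/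
structure Cond where
  D : Set Pts
  N : Pts → ℕ → Set Pts
  ρ : Pts → ℕ
  cnt : D.Countable
  inv : Inv Prod.fst D N ρ

instance condPre : Preorder Cond where
  le q p := p.D ⊆ q.D ∧ ∀ x ∈ p.D, q.N x = p.N x ∧ q.ρ x = p.ρ x
  le_refl _ := ⟨subset_rfl, fun _ _ => ⟨rfl, rfl⟩⟩
  le_trans _ _ _ h1 h2 := ⟨h2.1.trans h1.1, fun x hx =>
    ⟨(h1.2 x (h2.1 hx)).1.trans (h2.2 x hx).1, (h1.2 x (h2.1 hx)).2.trans (h2.2 x hx).2⟩⟩

theorem Cond.le_def {p q : Cond} :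
    q ≤ p ↔ p.D ⊆ q.D ∧ ∀ x ∈ p.D, q.N x = p.N x ∧ q.ρ x = p.ρ x := Iff.rfl

/-- The trivial condition. -/
def Cond.triv : Cond :=
  ⟨∅, fun _ _ => ∅, fun _ => 0, countable_empty, ⟨fun _ h => h.elim, fun _ h => h.elim⟩⟩

theorem Cond.exists_lb (f : ℕ → Cond) (hf : ∀ n, f (n + 1) ≤ f n) : ∃ q, ∀ n, q ≤ f n := by
  classical
  have hm : ∀ m n, m ≤ n → f n ≤ f m := fun m n h => antitone_nat_of_succ_le hf h
  let i : Pts → ℕ := fun x => if hx : ∃ n, x ∈ (f n).D then hx.choose else 0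
  have hi : ∀ n, ∀ x ∈ (f n).D, (f (i x)).N x = (f n).N x ∧ (f (i x)).ρ x = (f n).ρ x := by
    intro n x hx
    have h1 : ∃ n, x ∈ (f n).D := ⟨n, hx⟩
    have h2 : x ∈ (f (i x)).D := by
      simp only [i, dif_pos h1]
      exact h1.choose_spec
    rcases le_total n (i x) with h3 | h3
    · exact (hm _ _ h3).2 x hx
    · exact ⟨((hm _ _ h3).2 x h2).1.symm, ((hm _ _ h3).2 x h2).2.symm⟩
  have hI := fun n => (f n).inv.congr (N' := fun x => (f (i x)).N x) (ρ' := fun x => (f (i x)).ρ x)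
    (fun x hx => (hi n x hx).1) (fun x hx => (hi n x hx).2)
  refine ⟨⟨⋃ n, (f n).D, fun x => (f (i x)).N x, fun x => (f (i x)).ρ x,
    countable_iUnion fun n => (f n).cnt, fun x hx => ?_, fun x hx y hy => ?_⟩,
    fun n => ⟨subset_iUnion (fun n => (f n).D) n, hi n⟩⟩
  · obtain ⟨n, hn⟩ := mem_iUnion.1 hx
    exact ((hI n).pt x hn).of_subset (subset_iUnion (fun n => (f n).D) n)
  · obtain ⟨n, hn⟩ := mem_iUnion.1 hx
    obtain ⟨m, hm'⟩ := mem_iUnion.1 hy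
    exact (hI (max n m)).sep x ((hm _ _ (le_max_left _ _)).1 hn) y ((hm _ _ (le_max_right _ _)).1 hm')

theorem Cond.exists_mem (p : Cond) (y : Pts) : ∃ q ≤ p, y ∈ q.D := by
  classical
  by_cases hy : y ∈ p.D
  · exact ⟨p, le_rfl, hy⟩
  have hN : ∀ x ∈ p.D, Function.update p.N y (fun _ => {y}) x = p.N x := fun x hx =>
    Function.update_of_ne (fun e : x = y => hy (e ▸ hx)) _ _
  have I := p.inv.congr (ρ' := p.ρ) hN fun _ _ => rfl
  exact ⟨⟨insert y p.D, _, p.ρ, p.cnt.insert y, I.insert (step_iso I hy (by simp))⟩,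
    ⟨subset_insert _ _, fun x hx => ⟨hN x hx, rfl⟩⟩, mem_insert _ _⟩

theorem exists_ht_bound (s : ℕ → Ht) : ∃ γ, ∀ k, s k < γ :=
  exists_bound (κ := Order.succ 𝔠) (by
    rw [(isRegular_succ aleph0_le_continuum).cof_ord]
    exact aleph0_lt_continuum.trans (Order.lt_succ _)) s

theorem Cond.exists_acc (p : Cond) (s : ℕ → Pts) (n : ℕ) (hs : ∀ k, s k ∈ p.D)
    (hρ : ∀ k, p.ρ (s k) ≤ n) : ∃ q ≤ p, ∃ z ∈ q.D, ∀ i, ∃ᶠ k in atTop, s k ∈ q.N z i := by
  classical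
  by_cases hc : ∃ y ∈ p.D, ∃ᶠ k in atTop, s k ∈ p.N y 0
  · obtain ⟨y, h1, h2⟩ := hc
    exact ⟨p, le_rfl, p.inv.exists_acc s y h1 h2⟩
  push Not at hc
  obtain ⟨γ, hγ⟩ := exists_ht_bound fun k => (s k).1
  obtain ⟨α, φ, hφ, g1, g2⟩ := exists_subseq Prod.fst s fun k => (hγ k).le
  have := p.cnt.to_subtype
  obtain ⟨f, hf⟩ := exists_good p.inv (α := α) (s := fun k => s (φ k)) (n := n) (fun k => hs _)
    (fun k => hρ _) g1 (fun y hy => by
      obtain ⟨m, hm⟩ := eventually_atTop.1 (hc y hy)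
      exact ⟨m, fun k hk => hm _ (hk.trans (hφ.id_le k))⟩) g2 p.D (fun y hy => Or.inl hy)
    subset_rfl dom_countable
  obtain ⟨r, hr⟩ : ∃ r : Set ℕ, (α, r) ∉ p.D := by
    by_contra hc
    push Not at hc
    have h1 : (univ : Set (Set ℕ)).Countable :=
      (p.cnt.image Prod.snd).mono fun r _ => mem_image_of_mem Prod.snd (hc r)
    have h2 := countable_univ_iff.1 h1
    obtain ⟨e, he⟩ := exists_surjective_nat (Set ℕ)
    exact Function.cantor_surjective e he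
  set x : Pts := (α, r)
  set N' := Function.update p.N x fun j => insert x (⋃ k ≥ j, p.N (s (φ k)) (f k))
  set ρ' := Function.update p.ρ x (n + 1)
  have hN : ∀ y ∈ p.D, N' y = p.N y := fun y hy =>
    Function.update_of_ne (fun e : y = x => hr (e ▸ hy)) _ _
  have hρ' : ∀ y ∈ p.D, ρ' y = p.ρ y := fun y hy =>
    Function.update_of_ne (fun e : y = x => hr (e ▸ hy)) _ _
  have I := p.inv.congr hN hρ'
  have hx : ∀ j, N' x j = insert x (⋃ k ≥ j, N' (s (φ k)) (f k)) := by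
    intro j
    simp only [hN _ (hs _)]
    simp [N']
  refine ⟨⟨insert x p.D, N', ρ', p.cnt.insert x,
    I.insert (step_lim I hr (hf.congr hN hρ') hx (by simp [ρ']))⟩,
    ⟨subset_insert _ _, fun y hy => ⟨hN y hy, hρ' y hy⟩⟩, x, mem_insert _ _, fun i => ?_⟩
  refine hφ.tendsto_atTop.frequently (p := fun k => s k ∈ N' x i) (Eventually.frequently ?_)
  filter_upwards [eventually_ge_atTop i] with k hk
  rw [hx]
  exact Or.inr (mem_biUnion hk ((I.pt _ (hs _)).self _))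

theorem sep_of_amalg {p q : Cond} {γ : Ht} (h1 : ∀ x ∈ p.D, x ∈ q.D → x.1 ≤ γ)
    (h2 : ∀ y ∈ q.D, y.1 ≤ γ → y ∈ p.D) {N : Pts → ℕ → Set Pts} {x y : Pts} (hx : x ∈ p.D)
    (hy : y ∈ q.D) (hy' : y ∉ p.D) (e1 : N x = p.N x) (e2 : N y = q.N y) : Sep N x y := by
  have hn : ∀ j, y ∉ N x j := fun j hj =>
    hy' ((p.inv.pt x hx).sub ((p.inv.pt x hx).sub0 j (e1 ▸ hj)))
  refine ⟨fun j hj => absurd hj (hn j), fun j _ => ?_, fun _ => ⟨0, hn 0⟩⟩
  obtain ⟨i, hi⟩ := (q.inv.pt y hy).low γ (not_le.1 fun h => hy' (h2 y hy h))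
  refine ⟨i, disjoint_left.2 fun z hz hz' => ?_⟩
  rw [e2] at hz
  rw [e1] at hz'
  exact (hi z hz).not_ge (h1 z ((p.inv.pt x hx).sub ((p.inv.pt x hx).sub0 j hz'))
    ((q.inv.pt y hy).sub ((q.inv.pt y hy).sub0 i hz)))

theorem Cond.amalg {p q : Cond} {γ : Ht}
    (h1 : ∀ x ∈ p.D, x ∈ q.D → x.1 ≤ γ ∧ p.N x = q.N x ∧ p.ρ x = q.ρ x)
    (h2 : ∀ y ∈ q.D, y.1 ≤ γ → y ∈ p.D) (h3 : ∀ y ∈ p.D, y.1 ≤ γ → y ∈ q.D) :
    ∃ r, r ≤ p ∧ r ≤ q := by
  classical
  let N : Pts → ℕ → Set Pts := fun x => if x ∈ p.D then p.N x else q.N x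
  let ρ : Pts → ℕ := fun x => if x ∈ p.D then p.ρ x else q.ρ x
  have a1 : ∀ x ∈ p.D, N x = p.N x := fun x hx => if_pos hx
  have a2 : ∀ x ∈ p.D, ρ x = p.ρ x := fun x hx => if_pos hx
  have a3 : ∀ x ∈ q.D, N x = q.N x := fun x hx => by
    by_cases hx' : x ∈ p.D
    · exact (a1 x hx').trans (h1 x hx' hx).2.1
    · exact if_neg hx'
  have a4 : ∀ x ∈ q.D, ρ x = q.ρ x := fun x hx => by
    by_cases hx' : x ∈ p.D
    · exact (a2 x hx').trans (h1 x hx' hx).2.2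
    · exact if_neg hx'
  have I := p.inv.congr a1 a2
  have J := q.inv.congr a3 a4
  refine ⟨⟨p.D ∪ q.D, N, ρ, p.cnt.union q.cnt, ?_, ?_⟩,
    ⟨subset_union_left, fun x hx => ⟨a1 x hx, a2 x hx⟩⟩,
    ⟨subset_union_right, fun x hx => ⟨a3 x hx, a4 x hx⟩⟩⟩
  · rintro x (hx | hx)
    · exact (I.pt x hx).of_subset subset_union_left
    · exact (J.pt x hx).of_subset subset_union_right
  · rintro x (hx | hx) y (hy | hy)
    · exact I.sep x hx y hy
    · by_cases hy' : y ∈ p.D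
      · exact I.sep x hx y hy'
      · exact sep_of_amalg (fun x a b => (h1 x a b).1) h2 hx hy hy' (a1 x hx) (a3 y hy)
    · by_cases hy' : y ∈ q.D
      · exact J.sep x hx y hy'
      · exact sep_of_amalg (fun x a b => (h1 x b a).1) h3 hx hy hy' (a3 x hx) (a1 y hy)
    · exact J.sep x hx y hy

end Pool.Agent.Lib.MP_f9875e_gt
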