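import Mathlib

/-!
Systems of basic neighbourhoods on a set with a height function and a level function, the one-point
extension step, and the weakly first countable compactum attached to a saturated system.
-/

open Set Filter Topology

namespace Pool.Agent.Lib.MP_f9875e_gt

variable {Y H : Type} [LinearOrder H]

/-- The conditions on a single point. -/
structure Pt (h : Y → H) (D : Set Y) (N : Y → ℕ → Set Y) (ρ : Y → ℕ) (x : Y) : Prop where
  self : ∀ j, x ∈ N x j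
  anti : ∀ j, N x (j + 1) ⊆ N x j
  sub : N x 0 ⊆ D
  cnt : (N x 0).Countable
  hle : ∀ y ∈ N x 0, h y ≤ h x
  rlt : ∀ y ∈ N x 0, y ≠ x → ρ y < ρ x
  low : ∀ β < h x, ∃ j, ∀ y ∈ N x j, β < h y
  cpt : ∀ i, ∃ T : Set Y, T.Finite ∧ (∀ y ∈ T, y ∈ D ∧ ρ y < ρ x) ∧
    N x 0 \ N x i ⊆ ⋃ y ∈ T, N y 0

/-- The conditions on a pair of points. -/
structure Sep (N : Y → ℕ → Set Y) (x y : Y) : Prop where
  opn : ∀ j, y ∈ N x j → ∃ i, N y i ⊆ N x j
  cls : ∀ j, y ∉ N x j → ∃ i, Disjoint (N y i) (N x j)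
  hd : x ≠ y → ∃ j, y ∉ N x j

/-- A system on the set `D`. -/
structure Inv (h : Y → H) (D : Set Y) (N : Y → ℕ → Set Y) (ρ : Y → ℕ) : Prop where
  pt : ∀ x ∈ D, Pt h D N ρ x
  sep : ∀ x ∈ D, ∀ y ∈ D, Sep N x y

variable {h : Y → H} {D : Set Y} {N : Y → ℕ → Set Y} {ρ : Y → ℕ}

theorem Pt.mono {x : Y} (p : Pt h D N ρ x) {i j : ℕ} (hij : i ≤ j) : N x j ⊆ N x i :=
  antitone_nat_of_succ_le (f := N x) p.anti hij

theorem Pt.sub0 {x : Y} (p : Pt h D N ρ x) (j : ℕ) : N x j ⊆ N x 0 := p.mono (Nat.zero_le j)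

theorem Pt.of_subset {x : Y} (p : Pt h D N ρ x) {D' : Set Y} (hD : D ⊆ D') : Pt h D' N ρ x where
  self := p.self
  anti := p.anti
  sub := p.sub.trans hD
  cnt := p.cnt
  hle := p.hle
  rlt := p.rlt
  low := p.low
  cpt := fun i => by
    obtain ⟨T, h1, h2, h3⟩ := p.cpt i
    exact ⟨T, h1, fun y hy => ⟨hD (h2 y hy).1, (h2 y hy).2⟩, h3⟩

theorem Pt.sep_self {x : Y} (p : Pt h D N ρ x) : Sep N x x where
  opn := fun j _ => ⟨j, subset_rfl⟩
  cls := fun j hj => absurd (p.self j) hj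
  hd := fun h => absurd rfl h

/-- The data for adding a limit point of height `α` to the sequence `s`. -/
structure Good (h : Y → H) (D : Set Y) (N : Y → ℕ → Set Y) (ρ : Y → ℕ) (α : H) (s : ℕ → Y)
    (n : ℕ) (f : ℕ → ℕ) : Prop where
  mem : ∀ k, s k ∈ D
  lev : ∀ k, ρ (s k) ≤ n
  hle : ∀ k, h (s k) ≤ α
  fin : ∀ y ∈ D, ∃ i, ∀ k ≥ i, Disjoint (N y 0) (N (s k) (f k))
  low : ∀ β < α, ∃ i, ∀ k ≥ i, ∀ z ∈ N (s k) (f k), β < h z

/-- A finite intersection of conditions, each holding for all small neighbourhoods. -/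
theorem exists_small {x : Y} (p : Pt h D N ρ x) (m : ℕ) (P : ℕ → Set Y → Prop)
    (hP : ∀ k A B, A ⊆ B → P k B → P k A) (hk : ∀ k < m, ∃ i, P k (N x i)) :
    ∃ i, ∀ k < m, P k (N x i) := by
  induction m with
  | zero => exact ⟨0, fun k hk => absurd hk (Nat.not_lt_zero k)⟩
  | succ m ih =>
    obtain ⟨i, hi⟩ := ih fun k hk' => hk k (Nat.lt_succ_of_lt hk')
    obtain ⟨i', hi'⟩ := hk m (Nat.lt_succ_self m)
    refine ⟨max i i', fun k hk' => ?_⟩
    rcases Nat.lt_succ_iff_lt_or_eq.1 hk' with h1 | rfl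
    · exact hP _ _ _ (p.mono (le_max_left _ _)) (hi k h1)
    · exact hP _ _ _ (p.mono (le_max_right _ _)) hi'

/-- Adding a limit point. -/
theorem step_lim (I : Inv h D N ρ) {x : Y} (hx : x ∉ D) {s : ℕ → Y} {n : ℕ} {f : ℕ → ℕ}
    (G : Good h D N ρ (h x) s n f) (hN : ∀ j, N x j = insert x (⋃ k ≥ j, N (s k) (f k)))
    (hρ : ρ x = n + 1) :
    Pt h (insert x D) N ρ x ∧ ∀ y ∈ D, Sep N x y ∧ Sep N y x := by
  have hs := fun k => I.pt _ (G.mem k)
  have hmem : ∀ {j y}, y ∈ N x j ↔ y = x ∨ ∃ k ≥ j, y ∈ N (s k) (f k) := by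
    intro j y
    simp [hN]
  have hxN : ∀ y ∈ D, ∀ j, x ∉ N y j := fun y hy j hj =>
    hx ((I.pt y hy).sub ((I.pt y hy).sub0 j hj))
  refine ⟨⟨fun j => hmem.2 (Or.inl rfl), fun j y hy => ?_, fun y hy => ?_, ?_, fun y hy => ?_,
    fun y hy hne => ?_, fun β hβ => ?_, fun i => ?_⟩, fun y hy => ⟨⟨?_, ?_, ?_⟩, ⟨?_, ?_, ?_⟩⟩⟩
  · rcases hmem.1 hy with h1 | ⟨k, hk, h1⟩
    · exact hmem.2 (Or.inl h1)
    · exact hmem.2 (Or.inr ⟨k, by omega, h1⟩)
  · rcases hmem.1 hy with h1 | ⟨k, -, h1⟩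
    · exact Or.inl h1
    · exact Or.inr ((hs k).sub ((hs k).sub0 _ h1))
  · rw [hN]
    exact (countable_iUnion fun k => countable_iUnion fun _ =>
      (hs k).cnt.mono ((hs k).sub0 _)).insert x
  · rcases hmem.1 hy with rfl | ⟨k, -, h1⟩
    · exact le_rfl
    · exact ((hs k).hle _ ((hs k).sub0 _ h1)).trans (G.hle k)
  · rcases hmem.1 hy with rfl | ⟨k, -, h1⟩
    · exact absurd rfl hne
    · have := G.lev k
      by_cases e : y = s k
      · rw [e]; omega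
      · have := (hs k).rlt _ ((hs k).sub0 _ h1) e
        omega
  · obtain ⟨i, hi⟩ := G.low β hβ
    refine ⟨i, fun y hy => ?_⟩
    rcases hmem.1 hy with rfl | ⟨k, hk, h1⟩
    · exact hβ
    · exact hi k hk y h1
  · refine ⟨s '' Iio i, (finite_lt_nat i).image s, ?_, ?_⟩
    · rintro _ ⟨k, -, rfl⟩
      exact ⟨Or.inr (G.mem k), by have := G.lev k; omega⟩
    · rintro y ⟨h1, h2⟩
      rcases hmem.1 h1 with rfl | ⟨k, -, h1⟩
      · exact absurd (hmem.2 (Or.inl rfl)) h2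
      · have hk : k < i := by
          by_contra hk
          exact h2 (hmem.2 (Or.inr ⟨k, not_lt.1 hk, h1⟩))
        exact mem_biUnion (mem_image_of_mem s hk) ((hs k).sub0 _ h1)
  · intro j hj
    rcases hmem.1 hj with rfl | ⟨k, hk, h1⟩
    · exact absurd hy hx
    · obtain ⟨i, hi⟩ := (I.sep _ (G.mem k) y hy).opn _ h1
      exact ⟨i, fun z hz => hmem.2 (Or.inr ⟨k, hk, hi hz⟩)⟩
  · intro j hj
    obtain ⟨m, hm⟩ := G.fin y hy
    obtain ⟨i, hi⟩ := exists_small (I.pt y hy) m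
      (fun k A => j ≤ k → Disjoint A (N (s k) (f k)))
      (fun k A B hAB hB hk => (hB hk).mono_left hAB) (fun k _ => by
        by_cases hk : j ≤ k
        · obtain ⟨i, hi⟩ := (I.sep _ (G.mem k) y hy).cls (f k)
            fun h1 => hj (hmem.2 (Or.inr ⟨k, hk, h1⟩))
          exact ⟨i, fun _ => hi⟩
        · exact ⟨0, fun h => absurd h hk⟩)
    refine ⟨i, disjoint_left.2 fun z hz hz' => ?_⟩
    rcases hmem.1 hz' with rfl | ⟨k, hk, h1⟩
    · exact hxN y hy i hz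
    · by_cases hkm : k < m
      · exact disjoint_left.1 (hi k hkm hk) hz h1
      · exact disjoint_left.1 (hm k (not_lt.1 hkm)) ((I.pt y hy).sub0 _ hz) h1
  · intro hne
    obtain ⟨m, hm⟩ := G.fin y hy
    refine ⟨m, fun hj => ?_⟩
    rcases hmem.1 hj with h1 | ⟨k, hk, h1⟩
    · exact hne h1.symm
    · exact disjoint_left.1 (hm k hk) ((I.pt y hy).self 0) h1
  · intro j hj
    exact absurd hj (hxN y hy j)
  · intro j _
    obtain ⟨m, hm⟩ := G.fin y hy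
    refine ⟨m, disjoint_left.2 fun z hz hz' => ?_⟩
    rcases hmem.1 hz with rfl | ⟨k, hk, h1⟩
    · exact hxN y hy j hz'
    · exact disjoint_left.1 (hm k hk) ((I.pt y hy).sub0 _ hz') h1
  · exact fun _ => ⟨0, hxN y hy 0⟩

/-- Adding an isolated point. -/
theorem step_iso (I : Inv h D N ρ) {x : Y} (hx : x ∉ D) (hN : ∀ j, N x j = {x}) :
    Pt h (insert x D) N ρ x ∧ ∀ y ∈ D, Sep N x y ∧ Sep N y x := by
  have hxN : ∀ y ∈ D, ∀ j, x ∉ N y j := fun y hy j hj =>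
    hx ((I.pt y hy).sub ((I.pt y hy).sub0 j hj))
  refine ⟨⟨by simp [hN], by simp [hN], by simp [hN], by simp [hN], by simp [hN], by simp [hN],
    fun β hβ => ⟨0, by simpa [hN] using hβ⟩, fun i => ⟨∅, finite_empty, by simp, by simp [hN]⟩⟩,
    fun y hy => ⟨⟨?_, ?_, ?_⟩, ⟨?_, ?_, ?_⟩⟩⟩
  · intro j hj
    rw [hN] at hj
    exact absurd (hj ▸ hy) hx
  · intro j _
    exact ⟨0, by simpa [hN] using hxN y hy 0⟩
  · intro hne
    exact ⟨0, by simpa [hN] using hne.symm⟩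
  · intro j hj
    exact absurd hj (hxN y hy j)
  · intro j hj
    exact ⟨0, by simpa [hN] using hj⟩
  · exact fun _ => ⟨0, hxN y hy 0⟩

/-- A family of sets that small neighbourhoods of almost all terms avoid can be avoided by one
choice of neighbourhoods, if the family is small enough to be dominated. -/
theorem exists_avoid {ι : Type} (s : ℕ → Y) (hs : ∀ k, Pt h D N ρ (s k)) (C : ι → Set Y)
    (hC : ∀ i, ∃ m, ∀ k ≥ m, ∃ j, Disjoint (C i) (N (s k) j))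
    (hdom : ∀ F : ι → ℕ → ℕ, ∃ g : ℕ → ℕ, ∀ i, ∃ m, ∀ k ≥ m, F i k ≤ g k) :
    ∃ f : ℕ → ℕ, ∀ i, ∃ m, ∀ k ≥ m, Disjoint (C i) (N (s k) (f k)) := by
  choose m hm using hC
  choose! F hF using hm
  obtain ⟨g, hg⟩ := hdom F
  refine ⟨g, fun i => ?_⟩
  obtain ⟨m', hm'⟩ := hg i
  exact ⟨max (m i) m', fun k hk => (hF i k (le_of_max_le_left hk)).mono_right
    ((hs k).mono (hm' k (le_of_max_le_right hk)))⟩

/-- Countably many heights below `α` control all heights below `α` on a countable set. -/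
theorem exists_heights (h : Y → H) (α : H) {A : Set Y} (hA : A.Countable) :
    ∃ B : Set H, B.Countable ∧ (∀ β ∈ B, β < α) ∧
      ∀ β < α, ∃ β' ∈ B, ∀ z ∈ A, h z ≤ β → h z ≤ β' := by
  by_cases hb : ∃ γ < α, ∀ z ∈ A, h z < α → h z ≤ γ
  · obtain ⟨γ, h1, h2⟩ := hb
    exact ⟨{γ}, countable_singleton γ, by simpa using h1,
      fun β hβ => ⟨γ, rfl, fun z hz hz' => h2 z hz (hz'.trans_lt hβ)⟩⟩
  · push Not at hb
    refine ⟨h '' A ∩ Iio α, (hA.image h).mono inter_subset_left, fun β hβ => hβ.2,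
      fun β hβ => ?_⟩
    obtain ⟨z, h1, h2, h3⟩ := hb β hβ
    exact ⟨h z, ⟨mem_image_of_mem h h1, h2⟩, fun w _ hw => hw.trans h3.le⟩

/-- Existence of the data for a limit point. -/
theorem exists_good (I : Inv h D N ρ) {α : H} {s : ℕ → Y} {n : ℕ} (hmem : ∀ k, s k ∈ D)
    (hlev : ∀ k, ρ (s k) ≤ n) (hle : ∀ k, h (s k) ≤ α)
    (hfin : ∀ y ∈ D, ∃ m, ∀ k ≥ m, s k ∉ N y 0) (hlow : ∀ β < α, ∃ m, ∀ k ≥ m, β < h (s k))
    (E : Set Y) (hE : ∀ y ∈ D, y ∈ E ∨ h y < α) (hED : E ⊆ D)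
    (hdom : ∀ F : E ⊕ ℕ → ℕ → ℕ, ∃ g : ℕ → ℕ, ∀ i, ∃ m, ∀ k ≥ m, F i k ≤ g k) :
    ∃ f, Good h D N ρ α s n f := by
  have hs := fun k => I.pt _ (hmem k)
  obtain ⟨B, hB, hB1, hB2⟩ := exists_heights h α (A := ⋃ k, N (s k) 0)
    (countable_iUnion fun k => (hs k).cnt)
  obtain ⟨e, he⟩ : ∃ e : ℕ → Option H, ∀ β ∈ B, ∃ i, e i = some β := by
    obtain ⟨e, he⟩ := ((hB.image some).insert none).exists_eq_range (insert_nonempty _ _)
    refine ⟨e, fun β hβ => ?_⟩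
    have : some β ∈ range e := he ▸ Or.inr (mem_image_of_mem some hβ)
    exact this
  let C : E ⊕ ℕ → Set Y := Sum.elim (fun y => N y 0)
    fun i => {z | ∃ β < α, e i = some β ∧ h z ≤ β}
  obtain ⟨f, hf⟩ := exists_avoid s hs C (by
    rintro (y | i)
    · obtain ⟨m, hm⟩ := hfin y (hED y.2)
      refine ⟨m, fun k hk => ?_⟩
      obtain ⟨j, hj⟩ := (I.sep _ (hED y.2) _ (hmem k)).cls 0 (hm k hk)
      exact ⟨j, hj.symm⟩
    · by_cases hi : ∃ β < α, e i = some β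
      · obtain ⟨β, hβ, hi⟩ := hi
        obtain ⟨m, hm⟩ := hlow β hβ
        refine ⟨m, fun k hk => ?_⟩
        obtain ⟨j, hj⟩ := (hs k).low β (hm k hk)
        refine ⟨j, disjoint_left.2 ?_⟩
        rintro z ⟨β', -, h1, h2⟩ hz
        rw [hi] at h1
        obtain rfl := Option.some.inj h1
        exact (hj z hz).not_ge h2
      · refine ⟨0, fun k _ => ⟨0, disjoint_left.2 ?_⟩⟩
        rintro z ⟨β', h0, h1, -⟩
        exact (hi ⟨β', h0, h1⟩).elim) hdom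
  have hlow' : ∀ β < α, ∃ i, ∀ k ≥ i, ∀ z ∈ N (s k) (f k), β < h z := by
    intro β hβ
    obtain ⟨β', h1, h2⟩ := hB2 β hβ
    obtain ⟨i, hi⟩ := he β' h1
    obtain ⟨m, hm⟩ := hf (Sum.inr i)
    refine ⟨m, fun k hk z hz => ?_⟩
    by_contra hc
    exact disjoint_left.1 (hm k hk) ⟨β', hB1 _ h1, hi,
      h2 z (mem_iUnion.2 ⟨k, (hs k).sub0 _ hz⟩) (not_lt.1 hc)⟩ hz
  refine ⟨f, hmem, hlev, hle, fun y hy => ?_, hlow'⟩
  rcases hE y hy with h1 | h1
  · exact hf (Sum.inl ⟨y, h1⟩)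
  · obtain ⟨m, hm⟩ := hlow' _ h1
    exact ⟨m, fun k hk => disjoint_left.2 fun z hz hz' =>
      (hm k hk z hz').not_ge ((I.pt y hy).hle z hz)⟩

/-- A sequence without a basic set containing infinitely many of its terms has a subsequence whose
heights are bounded by some `α` and leave every smaller height. -/
theorem exists_subseq [WellFoundedLT H] (h : Y → H) (s : ℕ → Y) {γ : H} (hγ : ∀ k, h (s k) ≤ γ) :
    ∃ (α : H) (φ : ℕ → ℕ), StrictMono φ ∧ (∀ k, h (s (φ k)) ≤ α) ∧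
      ∀ β < α, ∃ m, ∀ k ≥ m, β < h (s (φ k)) := by
  have hne : {α | ∃ᶠ k in atTop, h (s k) ≤ α}.Nonempty :=
    ⟨γ, Frequently.of_forall hγ⟩
  obtain ⟨α, h1, h2⟩ := wellFounded_lt.has_min _ hne
  obtain ⟨φ, hφ, h3⟩ := extraction_of_frequently_atTop h1
  refine ⟨α, φ, hφ, h3, fun β hβ => ?_⟩
  have h4 : ¬ ∃ᶠ k in atTop, h (s k) ≤ β := fun h5 => h2 β h5 hβ
  rw [not_frequently, eventually_atTop] at h4
  obtain ⟨m, hm⟩ := h4
  exact ⟨m, fun k hk => not_le.1 (hm _ (hk.trans (hφ.id_le k)))⟩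

end Pool.Agent.Lib.MP_f9875e_gt
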