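import Pool.Agent.Lib.MP_53f9be_gt.CcDefs

/-!
The statement that some weakly first countable compact Hausdorff space has more than continuum many
points, written in the language of set theory and read in a structure `(M, E)`.
-/

namespace Pool.Agent.Lib.MP_f9875e_gt

open Pool.Agent.Lib.MP_898cae_lc Pool.Agent.Lib.MP_53f9be_gt.Cc

variable {M : Type 1} (E : M → M → Prop)

/-- `V` assigns to each point `x` of `X` and each natural number `n` a subset `V(x, n)` of `X` that
contains `x`, the sets decrease with `n`, and a subset `O` of `X` is open iff every `x ∈ O` has some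
`V(x, n) ⊆ O`. -/
def WeakBase (w X τ V : M) : Prop :=
  (∀ x, E x X → ∀ n, E n w →
    ∃ W, Op E V x n W ∧ (∀ W', Op E V x n W' → W' = W) ∧ Subs E W X ∧ E x W) ∧
  (∀ x, E x X → ∀ n, E n w → ∀ n' W W', Succ E n n' → Op E V x n W → Op E V x n' W' →
    Subs E W' W) ∧
  ∀ O, Subs E O X → (E O τ ↔ ∀ x, E x O → ∃ n, E n w ∧ ∃ W, Op E V x n W ∧ Subs E W O)

/-- There is a weakly first countable compact Hausdorff space `X` such that the power set of `ω`
injects into `X` and `X` does not inject into the power set of `ω`. -/
def LargeWFC : Prop :=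
  ∃ w X τ V : M, Omega E w ∧ Haus E X τ ∧ (∀ S, Cover E X τ S → FinSub E w X S) ∧
    WeakBase E w X τ V ∧ Inj E (fun a => Subs E a w) (fun x => E x X) ∧
    ¬ Inj E (fun x => E x X) (fun a => Subs E a w)

end Pool.Agent.Lib.MP_f9875e_gt
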