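import Pool.Agent.Lib.MP_f9875e_gt.H28Model

/-!
The generic space is compact and has more than continuum many points.
-/

set_option synthInstance.maxSize 4000

open TopologicalSpace Set Filter
open Pool.Agent.Lib.MP_e0f6ac_lc Pool.Agent.Lib.MP_898cae_lc Pool.Agent.Lib.MP_53f9be_gt.Cc
open Pool.Agent.Lib.MP_53f9be_gt Pool.Agent.Lib.MP_53f9be_gt.Frc

namespace Pool.Agent.Lib.MP_f9875e_gt

/-- Outside `O` and the basic sets of the points of `T` all levels are below `n`. -/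
def Low (O : Nm Cond) (p : Cond) (n : ℕ) (T : Set Pts) : Prop :=
  T.Finite ∧ T ⊆ p.D ∧ ∀ q ≤ p, ∀ y ∈ q.D, n ≤ q.ρ y → (∀ t ∈ T, y ∉ q.N t 0) →
    Fo q fun U => El U (cd U (some y : Z)) (cls U O)

theorem exists_seq_cond (p : Cond) (P : Cond → Pts → Prop)
    (h : ∀ q ≤ p, ∀ T : Set Pts, T.Finite → T ⊆ q.D →
      ∃ r ≤ q, ∃ y ∈ r.D, (∀ t ∈ T, y ∉ r.N t 0) ∧ P r y)
    (hP : ∀ q r y, r ≤ q → y ∈ q.D → P q y → P r y) :
    ∃ r ≤ p, ∃ s : ℕ → Pts, (∀ k, s k ∈ r.D ∧ P r (s k)) ∧ Function.Injective s := by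
  let St : Type := {a : Cond × Set Pts // a.1 ≤ p ∧ a.2.Finite ∧ a.2 ⊆ a.1.D}
  have h1 : ∀ a : St, ∃ b : St, ∃ y, b.1.1 ≤ a.1.1 ∧ b.1.2 = insert y a.1.2 ∧ y ∉ a.1.2 ∧
      P b.1.1 y := by
    rintro ⟨⟨q, T⟩, k1, k2, k3⟩
    obtain ⟨r, g1, y, g2, g3, g4⟩ := h q k1 T k2 k3
    refine ⟨⟨(r, insert y T), g1.trans k1, k2.insert y, insert_subset g2 (k3.trans g1.1)⟩, y, g1,
      rfl, fun hy => g3 y hy ((r.inv.pt y g2).self 0), g4⟩
  choose nx y hy using h1
  let f : ℕ → St := fun n => nx^[n] ⟨(p, ∅), le_rfl, finite_empty, empty_subset _⟩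
  have hf : ∀ n, f (n + 1) = nx (f n) := fun n => Function.iterate_succ_apply' _ _ _
  obtain ⟨r, hr⟩ := Cond.exists_lb (fun n => (f n).1.1) fun n => by
    rw [hf]
    exact (hy _).1
  have hmono : Monotone fun n => (f n).1.2 := monotone_nat_of_le_succ fun n => by
    rw [hf, (hy _).2.1]
    exact subset_insert _ _
  have hmem : ∀ n, y (f n) ∈ (f (n + 1)).1.2 := fun n => by
    rw [hf, (hy _).2.1]
    exact mem_insert _ _
  refine ⟨r, (hr 0).trans (f 0).2.1, fun n => y (f n), fun n => ?_, ?_⟩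
  · have h2 := (f (n + 1)).2.2.2 (hmem n)
    refine ⟨(hr (n + 1)).1 h2, hP _ _ _ (hr (n + 1)) h2 ?_⟩
    rw [hf]
    exact (hy _).2.2.2
  · refine Function.Injective.of_lt_imp_ne fun m n hmn e => (hy (f n)).2.2.1 ?_
    rw [← e]
    exact hmono hmn (hmem m)

section

variable {τ : Nm Cond} (hτ : ∀ U O, El U O (cls U τ) ↔ Subs (El U) O (cls U XN) ∧
    ∀ x, El U x O → ∃ n, El U n (om U) ∧ ∃ W, Op (El U) (cls U VV) x n W ∧ Subs (El U) W O)

include hτ

theorem low_step {O : Nm Cond} {p : Cond} (hO : Fo p fun U => El U (cls U O) (cls U τ)) {n : ℕ}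
    {T : Set Pts} (h : Low O p (n + 1) T) : ∃ q ≤ p, ∃ T', Low O q n T' := by
  by_contra hc
  obtain ⟨r, hr, s, hs, hinj⟩ := exists_seq_cond p (fun q y => q.ρ y = n ∧ T ⊆ q.D ∧
      (∀ t ∈ T, y ∉ q.N t 0) ∧ Fo q fun U => ¬ El U (cd U (some y : Z)) (cls U O))
    (fun q hq T' h1 h2 => by
      by_contra hd
      refine hc ⟨q, hq, T ∪ T', h.1.union h1, union_subset (h.2.1.trans hq.1) h2,
        fun r hr y hy hn ht U hU => ?_⟩
      by_contra he
      obtain ⟨r', k1, k2⟩ := dec (fun U => ¬ El U (cd U (some y : Z)) (cls U O)) hU he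
      have k3 : ∀ t ∈ T ∪ T', y ∉ r'.N t 0 := fun t ht' => by
        rw [(k1.2 t (hr.1 (union_subset (h.2.1.trans hq.1) h2 ht'))).1]
        exact ht t ht'
      refine hd ⟨r', k1.trans hr, y, k1.1 hy, fun t ht' => k3 t (Or.inr ht'), ?_,
        h.2.1.trans ((k1.trans hr).trans hq).1, fun t ht' => k3 t (Or.inl ht'), k2⟩
      by_contra k4
      have k5 : n + 1 ≤ r'.ρ y := by
        have := (k1.2 y hy).2
        omega
      obtain ⟨U', hU'⟩ := exists_uf_br r'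
      exact k2 U' hU' (h.2.2 r' ((k1.trans hr).trans hq) y (k1.1 hy) k5
        (fun t ht' => k3 t (Or.inl ht')) U' hU'))
    (fun q r y hrq hy ⟨k1, k2, k3, k4⟩ => ⟨(hrq.2 y hy).2.trans k1, k2.trans hrq.1,
      fun t ht => by rw [(hrq.2 t (k2 ht)).1]; exact k3 t ht, k4.mono hrq⟩)
  obtain ⟨q, hq, z, hz, hacc⟩ := r.exists_acc s n (fun k => (hs k).1) fun k => (hs k).2.1.le
  have h1 : n + 1 ≤ q.ρ z := by
    have h2 : ∀ᶠ k in atTop, s k ≠ z := by
      by_cases hk : ∃ k₀, s k₀ = z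
      · obtain ⟨k₀, hk⟩ := hk
        filter_upwards [eventually_gt_atTop k₀] with k hk' e
        exact hk'.ne' (hinj (e.trans hk.symm))
      · exact Eventually.of_forall fun k e => hk ⟨k, e⟩
    obtain ⟨k, h3, h4⟩ := ((hacc 0).and_eventually h2).exists
    have h5 := (q.inv.pt z hz).rlt _ h3 h4
    rw [(hq.2 _ (hs k).1).2, (hs k).2.1] at h5
    exact h5
  have h2 : ∀ t ∈ T, z ∉ q.N t 0 := by
    intro t ht hzt
    have ht' : t ∈ r.D := hr.1 (h.2.1 ht)
    obtain ⟨i, hi⟩ := (q.inv.sep t (hq.1 ht') z hz).opn 0 hzt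
    obtain ⟨k, hk⟩ := (hacc i).exists
    refine (hs k).2.2.2.1 t ht ?_
    rw [← (hq.2 t ht').1]
    exact hi hk
  obtain ⟨i, q', k1, k2⟩ := open_dec hτ (p := q) (O := O) (z := some z) fun U hU =>
    ⟨hO U (br_mono (hq.trans hr) hU), h.2.2 q (hq.trans hr) z hz h1 h2 U hU⟩
  obtain ⟨k, hk⟩ := (hacc i).exists
  obtain ⟨U, hU⟩ := exists_uf_br q'
  exact (hs k).2.2.2.2 U (br_mono (k1.trans hq) hU)
    (k2 U hU _ (el_V (br_mono k1 hU) (show q.R (some z) i (some (s k)) from ⟨hz, hk⟩)))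

theorem low_zero {O : Nm Cond} (n : ℕ) : ∀ {p : Cond},
    (Fo p fun U => El U (cls U O) (cls U τ)) → ∀ {T : Set Pts}, Low O p n T →
      ∃ q ≤ p, ∃ T', Low O q 0 T' := by
  induction n with
  | zero => exact fun _ T h => ⟨_, le_rfl, T, h⟩
  | succ n ih =>
    intro p hO T h
    obtain ⟨q, hq, T', h'⟩ := low_step hτ hO h
    obtain ⟨r, hr, h''⟩ := ih (hO.mono hq) h'
    exact ⟨r, hr.trans hq, h''⟩

omit hτ in
theorem finSub_of {ι : Type} [Finite ι] (O : ι → Nm Cond) (S : Nm Cond) (U : UF Cond)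
    (h1 : ∀ i, El U (cls U (O i)) (cls U S))
    (h2 : ∀ x, El U x (cls U XN) → ∃ i, El U x (cls U (O i))) :
    FinSub (El U) (om U) (cls U XN) (cls U S) := by
  obtain ⟨m, ⟨e⟩⟩ := Finite.exists_equiv_fin ι
  have h3 : ∀ (U : UF Cond) a b, App (El U) (cls U (relN (fun i => numN (e i)) O)) a b →
      ∀ a' b', App (El U) (cls U (relN (fun i => numN (e i)) O)) a' b' → a = a' → b = b' := by
    refine all_rel fun i => ?_
    refine all_rel fun j U h => ?_
    rw [e.injective (Fin.ext (num_inj.1 h))]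
  refine ⟨_, num_el_om U m, cls U (relN (fun i => numN (e i)) O),
    fun a b b' k1 k2 => h3 U a b k1 a b' k2 rfl, fun x hx => ?_⟩
  obtain ⟨i, hi⟩ := h2 x hx
  exact ⟨_, num_el_num.2 (e i).2, _, h1 i, app_rel U (fun i => numN (e i)) O i, hi⟩

theorem cover_dec {p : Cond} {S : Nm Cond}
    (hp : Fo p fun U => Cover (El U) (cls U XN) (cls U τ) (cls U S)) (z : Z) :
    ∃ q ≤ p, ∃ (n : ℕ) (O : Nm Cond), Fo q fun U => El U (cls U O) (cls U S) ∧
      Subs (El U) (cls U (VN z n)) (cls U O) := by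
  obtain ⟨O, hO⟩ := wit_dec (p := p) (fun U O => El U O (cls U S) ∧ El U (cd U z) O)
    fun U hU => (hp U hU).2 _ (el_X U z)
  obtain ⟨n, q, hq, h⟩ := open_dec hτ (p := p) (O := O) (z := z)
    fun U hU => ⟨(hp U hU).1 _ (hO U hU).1, (hO U hU).2⟩
  exact ⟨q, hq, n, O, fun U hU => ⟨(hO U (br_mono hq hU)).1, h U hU⟩⟩

theorem compact_X (U : UF Cond) (S : Md U) (h : Cover (El U) (cls U XN) (cls U τ) S) :
    FinSub (El U) (om U) (cls U XN) S := by
  obtain ⟨S, rfl⟩ := mk_surj S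
  refine dense0 (fun U => Cover (El U) (cls U XN) (cls U τ) (cls U S) →
    FinSub (El U) (om U) (cls U XN) (cls U S)) (fun p₀ => ?_) U h
  clear h U
  by_cases hc : ∃ U, hold U (br p₀) ∧ Cover (El U) (cls U XN) (cls U τ) (cls U S)
  swap
  · exact ⟨p₀, le_rfl, fun U hU h => absurd ⟨U, hU, h⟩ hc⟩
  obtain ⟨U, hU, h⟩ := hc
  obtain ⟨p, hp₀, hp⟩ := dec (fun U => Cover (El U) (cls U XN) (cls U τ) (cls U S)) hU h
  clear hU h U
  obtain ⟨p₁, h1, n, O, hO⟩ := cover_dec hτ hp none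
  obtain ⟨p₂, h2, T, hT⟩ := low_zero hτ n (O := O) (p := p₁)
    (fun U hU => (hp U (br_mono h1 hU)).1 _ (hO U hU).1) (T := ∅)
    ⟨finite_empty, empty_subset _, fun q hq y hy hn _ U hU => (hO U (br_mono hq hU)).2 _
      (el_V hU (show q.R none n (some y) from ⟨hy, hn⟩))⟩
  have := p₂.cnt.to_subtype
  obtain ⟨p₃, h3, hD⟩ := sigma_dec (fun (y : p₂.D) q => ∃ (n : ℕ) (O : Nm Cond),
      Fo q fun U => El U (cls U O) (cls U S) ∧ Subs (El U) (cls U (VN (some y.1) n)) (cls U O)) p₂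
    (fun y q r hrq ⟨n, O, h⟩ => ⟨n, O, h.mono hrq⟩)
    (fun y q hq => cover_dec hτ (hp.mono ((hq.trans h2).trans h1)) _)
  choose i W hW using hD
  classical
  let i' : Pts → ℕ := fun y => if hy : y ∈ p₂.D then i ⟨y, hy⟩ else 0
  choose! F hF using p₂.inv.exists_cover i'
  have hG : (⋃ t ∈ T, F t).Finite := hT.1.biUnion fun t ht => (hF t (hT.2.1 ht)).1
  have hG' : (⋃ t ∈ T, F t) ⊆ p₂.D := iUnion₂_subset fun t ht => (hF t (hT.2.1 ht)).2.1
  have := hG.to_subtype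
  let O' : Option ↥(⋃ t ∈ T, F t) → Nm Cond := fun o => o.elim O fun y => W ⟨y.1, hG' y.2⟩
  have h4 : ∀ z : Z, Fo p₃ fun U => ∃ o, El U (cd U z) (cls U (O' o)) := by
    rintro (_ | y)
    · exact fun U hU => ⟨none, (hO U (br_mono (h3.trans h2) hU)).2 _ (V_self none n U)⟩
    · have : Tr fun U => ∃ o, El U (cd U (some y : Z)) (cls U (O' o)) :=
        ⟨⨆ o, Name.mem (cdN (some y : Z)) (O' o), fun U => by rw [hold_iSup_fin]; rfl⟩
      refine dense1 _ fun q hq => ?_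
      obtain ⟨r, hr, hy⟩ := q.exists_mem y
      refine ⟨r, hr, fun U hU => ?_⟩
      have hr' := (hr.trans hq).trans h3
      by_cases ht : ∀ t ∈ T, y ∉ r.N t 0
      · exact ⟨none, hT.2.2 r hr' y hy (Nat.zero_le _) ht U hU⟩
      · push Not at ht
        obtain ⟨t, k1, k2⟩ := ht
        rw [(hr'.2 t (hT.2.1 k1)).1] at k2
        obtain ⟨w, k3, k4⟩ := mem_iUnion₂.1 ((hF t (hT.2.1 k1)).2.2 k2)
        have k5 : w ∈ ⋃ t ∈ T, F t := mem_biUnion k1 k3
        refine ⟨some ⟨w, k5⟩, (hW ⟨w, hG' k5⟩ U (br_mono (hr.trans hq) hU)).2 _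
          (el_V (br_mono hr' hU) (show p₂.R (some w) _ (some y) from ⟨hG' k5, ?_⟩))⟩
        simpa only [i', dif_pos (hG' k5)] using k4
  have h5 : ∀ τ', Tr fun U => ∃ o, El U (cls U τ') (cls U (O' o)) := fun τ' =>
    ⟨⨆ o, Name.mem τ' (O' o), fun U => by rw [hold_iSup_fin]; rfl⟩
  have h6 : ∀ U x, El U x (cls U XN) → hold U (br p₃) → ∃ o, El U x (cls U (O' o)) :=
    allX fun z U hU => h4 z U hU
  refine ⟨p₃, ((h3.trans h2).trans h1).trans hp₀, fun U hU _ =>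
    finSub_of O' S U ?_ fun x hx => h6 U x hx hU⟩
  rintro (_ | y)
  · exact (hO U (br_mono (h3.trans h2) hU)).1
  · exact (hW _ U hU).1

end

/-- The name of a set of natural numbers. -/
noncomputable def setN (r : Set ℕ) : Nm Cond := Name.mk r (fun k => numN k.1) fun _ => ⊤

theorem el_setN {U : UF Cond} {r : Set ℕ} {k : ℕ} : El U (num U k) (cls U (setN r)) ↔ k ∈ r := by
  refine ⟨fun h => ?_, fun h => el_of_v (fun k : r => numN k.1) _ ⟨k, h⟩ (hold_top U)⟩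
  by_contra hc
  refine Frc.all_mk (fun U t => ¬ t = num U k) (fun j U _ e => hc ?_) h rfl
  rw [← num_inj.1 e]
  exact j.2

theorem setN_sub (U : UF Cond) (r : Set ℕ) : Subs (El U) (cls U (setN r)) (om U) := by
  have h : ∀ U t, El U t (cls U (setN r)) → El U t (om U) := fun U t ht =>
    Frc.all_mk (A := fun k : r => numN k.1) (v := fun _ => ⊤) (fun U t => El U t (om U))
      (fun j U _ => num_el_om U j.1) ht
  exact h U

theorem real_dec {p : Cond} {b : Nm Cond} (h : Fo p fun U => Subs (El U) (cls U b) (om U)) :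
    ∃ q ≤ p, ∃ r, Fo q fun U => cls U b = cls U (setN r) := by
  obtain ⟨q, hq, hD⟩ := sigma_dec (fun (k : ℕ) q => (Fo q fun U => El U (num U k) (cls U b)) ∨
      Fo q fun U => ¬ El U (num U k) (cls U b)) p
    (fun k q r h => Or.imp (·.mono h) (·.mono h)) (fun k q _ => by
      obtain ⟨U, hU⟩ := exists_uf_br q
      by_cases h : El U (num U k) (cls U b)
      · obtain ⟨r, h1, h2⟩ := dec (fun U => El U (num U k) (cls U b)) hU h
        exact ⟨r, h1, Or.inl h2⟩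
      · obtain ⟨r, h1, h2⟩ := dec (fun U => ¬ El U (num U k) (cls U b)) hU h
        exact ⟨r, h1, Or.inr h2⟩)
  let r : Set ℕ := {k | Fo q fun U => El U (num U k) (cls U b)}
  have h1 : ∀ U t, El U t (om U) → hold U (br q) →
      (El U t (cls U b) ↔ El U t (cls U (setN r))) := fun U t ht =>
    all_om (fun U t => hold U (br q) → (El U t (cls U b) ↔ El U t (cls U (setN r))))
      (fun k U hU => ⟨fun h => el_setN.2 ((hD k).resolve_right fun h' => h' U hU h),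
        fun h => el_setN.1 h U hU⟩) ht
  refine ⟨q, hq, r, fun U hU => md_ext fun t => ⟨fun ht => ?_, fun ht => ?_⟩⟩
  · exact (h1 U t (h U (br_mono hq hU) t ht) hU).1 ht
  · exact (h1 U t (setN_sub U r t ht) hU).2 ht

theorem setN_inj {U : UF Cond} {r r' : Set ℕ} (h : cls U (setN r) = cls U (setN r')) : r = r' := by
  ext k
  rw [← el_setN (U := U), h, el_setN]

theorem inj_reals (U : UF Cond) :
    Inj (El U) (fun a => Subs (El U) a (om U)) fun x => El U x (cls U XN) := by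
  obtain ⟨α, -⟩ := ht_bound_set countable_empty
  let B : Set ℕ → Nm Cond := fun r => cdN (some (α, r) : Z)
  have h3 : ∀ (U : UF Cond) a b, App (El U) (cls U (relN setN B)) a b →
      ∀ a' b', App (El U) (cls U (relN setN B)) a' b' → (a = a' ↔ b = b') := by
    refine all_rel fun i => ?_
    refine all_rel fun j U => ⟨fun h => ?_, fun h => ?_⟩
    · rw [setN_inj h]
    · have h1 : (some (α, i) : Z) = some (α, j) := cd_inj.1 h
      rw [(Prod.mk.inj (Option.some.inj h1)).2]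
  refine ⟨cls U (relN setN B), fun a b b' k1 k2 => (h3 U a b k1 a b' k2).1 rfl, fun a ha => ?_,
    fun a a' b k1 k2 => (h3 U a b k1 a' b k2).2 rfl⟩
  obtain ⟨a, rfl⟩ := mk_surj a
  refine dense0 (fun U => Subs (El U) (cls U a) (om U) →
    ∃ b, El U b (cls U XN) ∧ App (El U) (cls U (relN setN B)) (cls U a) b) (fun p => ?_) U ha
  by_cases hc : ∃ U, hold U (br p) ∧ Subs (El U) (cls U a) (om U)
  swap
  · exact ⟨p, le_rfl, fun U hU h => absurd ⟨U, hU, h⟩ hc⟩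
  obtain ⟨U', hU', h⟩ := hc
  obtain ⟨q, hq, h'⟩ := dec (fun U => Subs (El U) (cls U a) (om U)) hU' h
  obtain ⟨q', hq', r, hr⟩ := real_dec h'
  refine ⟨q', hq'.trans hq, fun U hU _ => ⟨_, el_X U (some (α, r)), ?_⟩⟩
  rw [hr U hU]
  exact app_rel U setN B r

theorem not_inj (U : UF Cond) :
    ¬ Inj (El U) (fun x => El U x (cls U XN)) fun a => Subs (El U) a (om U) := by
  rintro ⟨g, -, h1, h2⟩
  obtain ⟨g, rfl⟩ := mk_surj g
  refine by_force (fun U => (∀ a, El U a (cls U XN) →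
      ∃ b, Subs (El U) b (om U) ∧ App (El U) (cls U g) a b) ∧
    ∀ a a' b, App (El U) (cls U g) a b → App (El U) (cls U g) a' b → a = a') (fun p hp => ?_) U
    ⟨h1, h2⟩
  have h3 : ∀ α : Ht, ∃ q ≤ p, ∃ r, Fo q fun U =>
      App (El U) (cls U g) (cd U (some (α, ∅) : Z)) (cls U (setN r)) := by
    intro α
    obtain ⟨b, hb⟩ := wit_dec (p := p) (fun U b => Subs (El U) b (om U) ∧
      App (El U) (cls U g) (cd U (some (α, ∅) : Z)) b) fun U hU => (hp U hU).1 _ (el_X U _)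
    obtain ⟨q, hq, r, hr⟩ := real_dec (p := p) (b := b) fun U hU => (hb U hU).1
    refine ⟨q, hq, r, fun U hU => ?_⟩
    have h4 := (hb U (br_mono hq hU)).2
    rwa [hr U hU] at h4
  choose q hq r hr using h3
  obtain ⟨α, β, hne, e, s, k1, k2⟩ := chain q r
  obtain ⟨U', hU'⟩ := exists_uf_br s
  have h4 := (hp U' (br_mono (k1.trans (hq α)) hU')).2 _ _ _ (hr α U' (br_mono k1 hU'))
    (e ▸ hr β U' (br_mono k2 hU'))
  have h5 : (some (α, ∅) : Z) = some (β, ∅) := cd_inj.1 h4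
  exact hne (Prod.mk.inj (Option.some.inj h5)).1

theorem main_con : ∃ (M : Type 1) (E : M → M → Prop), ZFC E ∧ LargeWFC E := by
  obtain ⟨U, -⟩ := exists_uf_br Cond.triv
  obtain ⟨τ, hτ⟩ := exists_top
  exact ⟨Md U, El U, zfc_md U, om U, _, _, _, omega_om U, haus_X hτ U, compact_X hτ U,
    weakBase hτ U, inj_reals U, not_inj U⟩

end Pool.Agent.Lib.MP_f9875e_gt
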