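import Pool.Agent.Lib.MP_f9875e_gt.H28Chain
import Pool.Agent.Lib.MP_f9875e_gt.H28Defs
import Pool.Agent.Lib.MP_53f9be_gt.CcForce

/-!
The generic space: names, the weak base and the Hausdorff topology.
-/

set_option synthInstance.maxSize 4000

open TopologicalSpace Set Filter
open Pool.Agent.Lib.MP_e0f6ac_lc Pool.Agent.Lib.MP_898cae_lc Pool.Agent.Lib.MP_53f9be_gt.Cc
open Pool.Agent.Lib.MP_53f9be_gt Pool.Agent.Lib.MP_53f9be_gt.Frc

namespace Pool.Agent.Lib.MP_f9875e_gt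

instance condTop : TopologicalSpace Cond := Topology.lowerSet Cond

instance condLower : Topology.IsLowerSet Cond := ⟨rfl⟩

instance condClosed : SClosed Cond := ⟨Cond.exists_lb⟩

/-- The points of the compactum. -/
abbrev Z : Type := Option Pts

/-- The part of the weak base decided by a condition. -/
def Cond.R (p : Cond) : Z → ℕ → Z → Prop
  | some x, n, some y => x ∈ p.D ∧ y ∈ p.N x n
  | some _, _, none => False
  | none, _, none => True
  | none, n, some y => y ∈ p.D ∧ n ≤ p.ρ y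

theorem R_mono {p q : Cond} (h : q ≤ p) : ∀ {z n y}, p.R z n y → q.R z n y
  | some x, _, some _, ⟨h1, h2⟩ => ⟨h.1 h1, by rw [(h.2 x h1).1]; exact h2⟩
  | some _, _, none, h1 => h1
  | none, _, none, h1 => h1
  | none, _, some y, ⟨h1, h2⟩ => ⟨h.1 h1, by rw [(h.2 y h1).2]; exact h2⟩

theorem R_anti {p : Cond} {m n : ℕ} (h : m ≤ n) : ∀ {z y}, p.R z n y → p.R z m y
  | some x, some _, ⟨h1, h2⟩ => ⟨h1, (p.inv.pt x h1).mono h h2⟩
  | some _, none, h1 => h1
  | none, none, h1 => h1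
  | none, some _, ⟨h1, h2⟩ => ⟨h1, h.trans h2⟩

theorem R_some {p q : Cond} (h : q ≤ p) {x : Pts} (hx : x ∈ p.D) {n : ℕ} :
    ∀ {y}, q.R (some x) n y → ∃ y' ∈ p.N x n, y = some y'
  | some y, ⟨_, h2⟩ => ⟨y, by rw [← (h.2 x hx).1]; exact h2, rfl⟩
  | none, h1 => h1.elim

theorem exists_R (p : Cond) (n : ℕ) : ∀ z, ∃ q ≤ p, q.R z n z
  | none => ⟨p, le_rfl, trivial⟩
  | some x => by
    obtain ⟨q, h1, h2⟩ := p.exists_mem x
    exact ⟨q, h1, h2, (q.inv.pt x h2).self n⟩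

/-- The name of the underlying set. -/
noncomputable def XN : Nm Cond := famN (id : Z → Z)

/-- The name of a member of the weak base. -/
noncomputable def VN (z : Z) (n : ℕ) : Nm Cond :=
  Name.mk {a : Cond × Z // a.1.R z n a.2} (fun a => cdN a.1.2) fun a => br a.1.1

/-- The name of the weak base. -/
noncomputable def VV : Nm Cond :=
  relN (fun a : Z × ℕ => prN (cdN a.1) (numN a.2)) fun a => VN a.1 a.2

theorem el_X (U : UF Cond) (z : Z) : El U (cd U z) (cls U XN) := el_fam U id z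

theorem allX {P : (U : UF Cond) → Md U → Prop} [∀ τ, Tr fun U => P U (cls U τ)]
    (h : ∀ (z : Z) U, P U (cd U z)) : ∀ U y, El U y (cls U XN) → P U y :=
  all_fam (f := id) h

theorem el_V {U : UF Cond} {p : Cond} (h : hold U (br p)) {z y : Z} {n : ℕ} (hR : p.R z n y) :
    El U (cd U y) (cls U (VN z n)) :=
  el_of_v (fun a : {a : Cond × Z // a.1.R z n a.2} => cdN a.1.2) _ ⟨(p, y), hR⟩ h

theorem all_V {z : Z} {n : ℕ} {P : (U : UF Cond) → Md U → Prop} [∀ τ, Tr fun U => P U (cls U τ)]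
    (h : ∀ (p : Cond) (y : Z) U, p.R z n y → hold U (br p) → P U (cd U y)) :
    ∀ U y, El U y (cls U (VN z n)) → P U y :=
  fun _ _ hy => Frc.all_mk P (fun a U ha => h a.1.1 a.1.2 U a.2 ha) hy

theorem V_dec {U : UF Cond} {p : Cond} (hp : hold U (br p)) {z y : Z} {n : ℕ}
    (h : El U (cd U y) (cls U (VN z n))) : ∃ q ≤ p, q.R z n y := by
  by_contra hc
  refine all_V (P := fun U t => hold U (br p) → ¬ t = cd U y) (fun q y' U hq h1 h2 e => hc ?_)
    U _ h hp rfl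
  obtain rfl := cd_inj.1 e
  obtain ⟨r, k1, k2⟩ := compat h2 h1
  exact ⟨r, k1, R_mono k2 hq⟩

theorem op_V (U : UF Cond) (z : Z) (n : ℕ) :
    Op (El U) (cls U VV) (cd U z) (num U n) (cls U (VN z n)) :=
  ⟨_, pair_prN U _ _,
    app_rel U (fun a : Z × ℕ => prN (cdN a.1) (numN a.2)) (fun a => VN a.1 a.2) (z, n)⟩

theorem op_V_uniq {U : UF Cond} {z : Z} {n : ℕ} {W : Md U}
    (h : Op (El U) (cls U VV) (cd U z) (num U n) W) : W = cls U (VN z n) := by
  obtain ⟨t, ht, hp⟩ := h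
  refine all_rel (P := fun U t W => Pair (El U) t (cd U z) (num U n) → W = cls U (VN z n))
    (fun a U h => ?_) U t W hp ht
  obtain ⟨h1, h2⟩ := pair_inj (pair_prN U _ _) h
  rw [cd_inj.1 h1, num_inj.1 h2]

theorem dense1 {p : Cond} (H : UF Cond → Prop) [Tr H] (h : ∀ q ≤ p, ∃ r ≤ q, Fo r H) :
    Fo p H := by
  intro U hU
  by_contra hc
  obtain ⟨q, hq, hf⟩ := dec (fun U => ¬ H U) hU hc
  obtain ⟨r, hr, hr'⟩ := h q hq
  obtain ⟨U', hU'⟩ := exists_uf_br r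
  exact hf U' (br_mono hr hU') (hr' U' hU')

theorem dense0 (H : UF Cond → Prop) [Tr H] (h : ∀ q, ∃ r ≤ q, Fo r H) (U : UF Cond) : H U := by
  by_contra hc
  refine by_force (fun U => ¬ H U) (fun q hq => ?_) U hc
  obtain ⟨r, hr, hr'⟩ := h q
  obtain ⟨U', hU'⟩ := exists_uf_br r
  exact hq U' (br_mono hr hU') (hr' U' hU')

theorem V_anti {z : Z} {m n : ℕ} (h : m ≤ n) (U : UF Cond) :
    Subs (El U) (cls U (VN z n)) (cls U (VN z m)) :=
  all_V (P := fun U t => El U t (cls U (VN z m))) (fun _ _ _ h1 h2 => el_V h2 (R_anti h h1)) U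

theorem V_sub (z : Z) (n : ℕ) (U : UF Cond) : Subs (El U) (cls U (VN z n)) (cls U XN) :=
  all_V (P := fun U t => El U t (cls U XN)) (fun _ y U _ _ => el_X U y) U

theorem V_self (z : Z) (n : ℕ) (U : UF Cond) : El U (cd U z) (cls U (VN z n)) :=
  dense0 (fun U => El U (cd U z) (cls U (VN z n))) (fun q => by
    obtain ⟨r, h1, h2⟩ := exists_R q n z
    exact ⟨r, h1, fun U hU => el_V hU h2⟩) U

theorem exists_top : ∃ τ : Nm Cond, ∀ U O, El U O (cls U τ) ↔ Subs (El U) O (cls U XN) ∧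
    ∀ x, El U x O → ∃ n, El U n (om U) ∧ ∃ W, Op (El U) (cls U VV) x n W ∧ Subs (El U) W O := by
  obtain ⟨π, hπ⟩ := md_power XN
  obtain ⟨τ, hτ⟩ := md_sep (fun U O => Subs (El U) O (cls U XN) ∧
    ∀ x, El U x O → ∃ n, El U n (om U) ∧ ∃ W, Op (El U) (cls U VV) x n W ∧ Subs (El U) W O) π
  exact ⟨τ, fun U O => (hτ U O).trans ⟨fun h => h.2, fun h => ⟨hπ U O h.1, h⟩⟩⟩

section

variable {τ : Nm Cond} (hτ : ∀ U O, El U O (cls U τ) ↔ Subs (El U) O (cls U XN) ∧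
    ∀ x, El U x O → ∃ n, El U n (om U) ∧ ∃ W, Op (El U) (cls U VV) x n W ∧ Subs (El U) W O)

include hτ

theorem weakBase (U : UF Cond) : WeakBase (El U) (om U) (cls U XN) (cls U τ) (cls U VV) := by
  refine ⟨?_, ?_, fun O hO => (hτ U O).trans ⟨fun h => h.2, fun h => ⟨hO, h⟩⟩⟩
  · revert U
    refine allX fun z U n hn => ?_
    exact all_om (fun U n => ∃ W, Op (El U) (cls U VV) (cd U z) n W ∧
      (∀ W', Op (El U) (cls U VV) (cd U z) n W' → W' = W) ∧ Subs (El U) W (cls U XN) ∧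
        El U (cd U z) W)
      (fun k U => ⟨_, op_V U z k, fun _ h => op_V_uniq h, V_sub z k U, V_self z k U⟩) hn
  · revert U
    refine allX fun z U n hn => ?_
    refine all_om (fun U n => ∀ n' W W', Succ (El U) n n' → Op (El U) (cls U VV) (cd U z) n W →
      Op (El U) (cls U VV) (cd U z) n' W' → Subs (El U) W' W) (fun k U n' W W' h1 h2 h3 => ?_) hn
    obtain rfl := succ_uniq h1 (succ_num U k)
    obtain rfl := op_V_uniq h2
    obtain rfl := op_V_uniq h3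
    exact V_anti (Nat.le_succ k) U

omit hτ in
theorem V_sub_of {r : Cond} {A : Set Z} {z : Z} {n : ℕ} (hn : ∀ s ≤ r, ∀ y, s.R z n y → y ∈ A) :
    Fo r fun U => Subs (El U) (cls U (VN z n)) (cls U (famN fun a : A => a.1)) := by
  intro U hU t ht
  refine all_V (P := fun U t => hold U (br r) → El U t (cls U (famN fun a : A => a.1)))
    (fun s y U h1 h2 h3 => ?_) U t ht hU
  obtain ⟨s', k1, k2⟩ := compat h3 h2
  exact el_fam U (fun a : A => a.1) ⟨y, hn s' k1 y (R_mono k2 h1)⟩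

theorem open_of {p : Cond} {A : Set Z}
    (h : ∀ z ∈ A, ∀ q ≤ p, ∃ r ≤ q, ∃ n, ∀ s ≤ r, ∀ y, s.R z n y → y ∈ A) :
    Fo p fun U => El U (cls U (famN fun a : A => a.1)) (cls U τ) := by
  have h1 : ∀ U x, El U x (cls U (famN fun a : A => a.1)) → El U x (cls U XN) :=
    all_fam (f := fun a : A => a.1) fun a U => el_X U a.1
  have h2 : ∀ a : A, Fo p fun U => ∃ n, El U n (om U) ∧ ∃ W,
      Op (El U) (cls U VV) (cd U a.1) n W ∧ Subs (El U) W (cls U (famN fun a : A => a.1)) := by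
    intro a
    refine dense1 _ fun q hq => ?_
    obtain ⟨r, hr, n, hn⟩ := h a.1 a.2 q hq
    exact ⟨r, hr, fun U hU => ⟨_, num_el_om U n, _, op_V U a.1 n, V_sub_of hn U hU⟩⟩
  have h3 : ∀ U x, El U x (cls U (famN fun a : A => a.1)) → hold U (br p) →
      ∃ n, El U n (om U) ∧ ∃ W,
        Op (El U) (cls U VV) x n W ∧ Subs (El U) W (cls U (famN fun a : A => a.1)) :=
    all_fam (f := fun a : A => a.1) fun a U hU => h2 a U hU
  intro U hU
  exact (hτ U _).2 ⟨h1 U, fun x hx => h3 U x hx hU⟩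

theorem open_dec {p : Cond} {O : Nm Cond} {z : Z}
    (h : Fo p fun U => El U (cls U O) (cls U τ) ∧ El U (cd U z) (cls U O)) :
    ∃ n, ∃ q ≤ p, Fo q fun U => Subs (El U) (cls U (VN z n)) (cls U O) := by
  obtain ⟨n, q, hq, h'⟩ := om_dec (p := p) (fun U n => ∃ W, Op (El U) (cls U VV) (cd U z) n W ∧
    Subs (El U) W (cls U O)) fun U hU => ((hτ U _).1 (h U hU).1).2 _ (h U hU).2
  refine ⟨n, q, hq, fun U hU => ?_⟩
  obtain ⟨W, h1, h2⟩ := h' U hU
  rwa [op_V_uniq h1] at h2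

theorem sep_some {p : Cond} {x : Pts} (hx : x ∈ p.D) (j : ℕ) :
    Fo p fun U => El U (cls U (famN fun a : ↥(some '' p.N x j : Set Z) => a.1)) (cls U τ) ∧
      El U (cls U (famN fun a : ↥(some '' p.N x j : Set Z)ᶜ => a.1)) (cls U τ) := by
  intro U hU
  refine ⟨open_of hτ ?_ U hU, open_of hτ ?_ U hU⟩
  · rintro _ ⟨y, hy, rfl⟩ q hq
    have hy' := (p.inv.pt x hx).sub ((p.inv.pt x hx).sub0 j hy)
    obtain ⟨i, hi⟩ := (p.inv.sep x hx y hy').opn j hy
    refine ⟨q, le_rfl, i, fun s hs y' h => ?_⟩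
    obtain ⟨w, h1, rfl⟩ := R_some (hs.trans hq) hy' h
    exact ⟨w, hi h1, rfl⟩
  · rintro (_ | y) hy q hq
    · refine ⟨q, le_rfl, p.ρ x + 1, fun s hs y' h => ?_⟩
      rintro ⟨w, h1, rfl⟩
      have h2 := (p.inv.pt x hx).sub0 j h1
      have h3 : p.ρ x + 1 ≤ s.ρ w := h.2
      rw [((hs.trans hq).2 w ((p.inv.pt x hx).sub h2)).2] at h3
      by_cases e : w = x
      · rw [e] at h3; omega
      · have := (p.inv.pt x hx).rlt w h2 e
        omega
    · obtain ⟨r, hr, hr'⟩ := q.exists_mem y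
      have h1 := ((hr.trans hq).2 x hx).1
      obtain ⟨i, hi⟩ := (r.inv.sep x ((hr.trans hq).1 hx) y hr').cls j
        (by rw [h1]; exact fun h => hy ⟨y, h, rfl⟩)
      refine ⟨r, hr, i, fun s hs y' h => ?_⟩
      obtain ⟨w, h2, rfl⟩ := R_some hs hr' h
      rintro ⟨w', h3, h4⟩
      obtain rfl := Option.some.inj h4
      exact disjoint_left.1 hi h2 (h1 ▸ h3)

theorem haus_aux (x : Pts) (z : Z) (hne : some x ≠ z) (U : UF Cond) :
    ∃ O O', El U O (cls U τ) ∧ El U O' (cls U τ) ∧ El U (cd U (some x : Z)) O ∧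
      El U (cd U z) O' ∧ ∀ t, El U t O → ¬ El U t O' := by
  refine dense0 (fun U => ∃ O O', El U O (cls U τ) ∧ El U O' (cls U τ) ∧
    El U (cd U (some x : Z)) O ∧ El U (cd U z) O' ∧ ∀ t, El U t O → ¬ El U t O') (fun q => ?_) U
  obtain ⟨p, hp, hx, j, hj⟩ : ∃ p ≤ q, x ∈ p.D ∧ ∃ j, z ∉ some '' p.N x j := by
    obtain ⟨r, h1, h2⟩ := q.exists_mem x
    rcases z with _ | y
    · exact ⟨r, h1, h2, 0, by simp⟩
    · obtain ⟨s, h3, h4⟩ := r.exists_mem y
      obtain ⟨j, hj⟩ := (s.inv.sep x (h3.1 h2) y h4).hd fun e => hne (congrArg some e)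
      exact ⟨s, h3.trans h1, h3.1 h2, j, by simpa using hj⟩
  refine ⟨p, hp, fun U hU => ⟨_, _, (sep_some hτ hx j U hU).1, (sep_some hτ hx j U hU).2,
    el_fam U (fun a : ↥(some '' p.N x j : Set Z) => a.1) ⟨_, x, (p.inv.pt x hx).self j, rfl⟩,
    el_fam U (fun a : ↥(some '' p.N x j : Set Z)ᶜ => a.1) ⟨z, hj⟩, ?_⟩⟩
  clear hU
  revert U
  refine all_fam fun a U h => ?_
  obtain ⟨b, hb⟩ := el_fam_iff.1 h
  exact b.2 (by dsimp only at hb; rw [hb]; exact a.2)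

theorem haus_X (U : UF Cond) : Haus (El U) (cls U XN) (cls U τ) := by
  refine ⟨fun O hO => ((hτ U O).1 hO).1, (hτ U _).2 ⟨fun _ h => h, ?_⟩, fun O hO O' hO' => ?_,
    fun S hS => ?_, ?_⟩
  · revert U
    exact allX fun z U => ⟨_, num_el_om U 0, _, op_V U z 0, V_sub z 0 U⟩
  · obtain ⟨O, rfl⟩ := mk_surj O
    obtain ⟨O', rfl⟩ := mk_surj O'
    obtain ⟨W, hW⟩ := md_sep (fun U z => El U z (cls U O')) O
    obtain ⟨h1, h2⟩ := (hτ U _).1 hO
    obtain ⟨-, h3⟩ := (hτ U _).1 hO'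
    refine ⟨_, (hτ U _).2 ⟨fun x hx => h1 x ((hW U x).1 hx).1, fun x hx => ?_⟩, hW U⟩
    obtain ⟨m, hm, g1⟩ := h2 x ((hW U x).1 hx).1
    obtain ⟨n, hn, g2⟩ := h3 x ((hW U x).1 hx).2
    refine allX (P := fun U x => ∀ m, El U m (om U) → ∀ n, El U n (om U) →
      (∃ A, Op (El U) (cls U VV) x m A ∧ Subs (El U) A (cls U O)) →
      (∃ A, Op (El U) (cls U VV) x n A ∧ Subs (El U) A (cls U O')) →
      ∃ n, El U n (om U) ∧ ∃ A, Op (El U) (cls U VV) x n A ∧ Subs (El U) A (cls U W))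
      (fun z U m hm => ?_) U x (h1 x ((hW U x).1 hx).1) m hm n hn g1 g2
    refine all_om (fun U m => ∀ n, El U n (om U) →
      (∃ A, Op (El U) (cls U VV) (cd U z) m A ∧ Subs (El U) A (cls U O)) →
      (∃ A, Op (El U) (cls U VV) (cd U z) n A ∧ Subs (El U) A (cls U O')) →
      ∃ n, El U n (om U) ∧ ∃ A, Op (El U) (cls U VV) (cd U z) n A ∧ Subs (El U) A (cls U W))
      (fun i U n hn => ?_) hm
    refine all_om (fun U n =>
      (∃ A, Op (El U) (cls U VV) (cd U z) (num U i) A ∧ Subs (El U) A (cls U O)) →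
      (∃ A, Op (El U) (cls U VV) (cd U z) n A ∧ Subs (El U) A (cls U O')) →
      ∃ n, El U n (om U) ∧ ∃ A, Op (El U) (cls U VV) (cd U z) n A ∧ Subs (El U) A (cls U W))
      (fun j U => ?_) hn
    rintro ⟨A, a1, a2⟩ ⟨B, b1, b2⟩
    obtain rfl := op_V_uniq a1
    obtain rfl := op_V_uniq b1
    exact ⟨_, num_el_om U (max i j), _, op_V U z _, fun t ht => (hW U t).2
      ⟨a2 t (V_anti (le_max_left _ _) U t ht), b2 t (V_anti (le_max_right _ _) U t ht)⟩⟩
  · obtain ⟨S, rfl⟩ := mk_surj S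
    obtain ⟨W, hW⟩ := md_sep (fun U z => ∃ O, El U O (cls U S) ∧ El U z O) XN
    refine ⟨cls U W, (hτ U _).2 ⟨fun x hx => ((hW U x).1 hx).1, fun x hx => ?_⟩,
      fun x => (hW U x).trans ⟨fun h => h.2, fun ⟨O, h1, h2⟩ =>
        ⟨((hτ U O).1 (hS O h1)).1 x h2, O, h1, h2⟩⟩⟩
    obtain ⟨O, h1, h2⟩ := ((hW U x).1 hx).2
    obtain ⟨h3, h4⟩ := (hτ U O).1 (hS O h1)
    obtain ⟨n, hn, A, a1, a2⟩ := h4 x h2
    exact ⟨n, hn, A, a1, fun t ht => (hW U t).2 ⟨h3 t (a2 t ht), O, h1, a2 t ht⟩⟩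
  · revert U
    refine allX fun z => allX fun z' U hne => ?_
    have hne' : z ≠ z' := fun e => hne (cd_inj.2 e)
    rcases z with _ | x
    · rcases z' with _ | y
      · exact absurd rfl hne'
      · obtain ⟨O, O', h1, h2, h3, h4, h5⟩ := haus_aux hτ y none hne'.symm U
        exact ⟨O', O, h2, h1, h4, h3, fun t a b => h5 t b a⟩
    · exact haus_aux hτ x z' hne' U

end

end Pool.Agent.Lib.MP_f9875e_gt
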