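import Pool.Agent.Lib.MP_f9875e_gt.H28Top

/-!
The transfinite construction of a saturated system of size the successor of the continuum, when
every family of fewer than continuum many sequences is dominated.
-/

open Set Filter Topology Cardinal

namespace Pool.Agent.Lib.MP_f9875e_gt

section

variable {Y H : Type} [LinearOrder H] {h : Y → H}

theorem Good.congr {D : Set Y} {N N' : Y → ℕ → Set Y} {ρ ρ' : Y → ℕ} {α : H} {s : ℕ → Y} {n : ℕ}
    {f : ℕ → ℕ} (G : Good h D N ρ α s n f) (hN : ∀ y ∈ D, N' y = N y) (hρ : ∀ y ∈ D, ρ' y = ρ y) :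
    Good h D N' ρ' α s n f where
  mem := G.mem
  lev := fun k => by rw [hρ _ (G.mem k)]; exact G.lev k
  hle := G.hle
  fin := fun y hy => by
    obtain ⟨i, hi⟩ := G.fin y hy
    exact ⟨i, fun k hk => by rw [hN _ hy, hN _ (G.mem k)]; exact hi k hk⟩
  low := fun β hβ => by
    obtain ⟨i, hi⟩ := G.low β hβ
    exact ⟨i, fun k hk => by rw [hN _ (G.mem k)]; exact hi k hk⟩

variable [LinearOrder Y] [WellFoundedLT Y]

theorem exists_rec (h : Y → H) (task : Y → ℕ → Y) :
    ∃ (N : Y → ℕ → Set Y) (ρ : Y → ℕ), ∀ x,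
      (∃ n f, Good h (Iio x) N ρ (h x) (task x) n f ∧
        (∀ j, N x j = insert x (⋃ k ≥ j, N (task x k) (f k))) ∧ ρ x = n + 1) ∨
      ((∀ n f, ¬ Good h (Iio x) N ρ (h x) (task x) n f) ∧ ∀ j, N x j = {x}) := by
  classical
  let step : Y → (Y → (ℕ → Set Y) × ℕ) → (ℕ → Set Y) × ℕ := fun x A =>
    if hg : ∃ p : ℕ × (ℕ → ℕ),
        Good h (Iio x) (fun y => (A y).1) (fun y => (A y).2) (h x) (task x) p.1 p.2 then
      (fun j => insert x (⋃ k ≥ j, (A (task x k)).1 (hg.choose.2 k)), hg.choose.1 + 1)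
    else (fun _ => {x}, 0)
  let G : Y → (ℕ → Set Y) × ℕ := (wellFounded_lt (α := Y)).fix fun x prev =>
    step x fun y => if hy : y < x then prev y hy else (fun _ => ∅, 0)
  have hG : ∀ x, G x = step x fun y => if y < x then G y else (fun _ => ∅, 0) := by
    intro x
    simp only [G]
    rw [WellFounded.fix_eq]
    simp
  refine ⟨fun y => (G y).1, fun y => (G y).2, fun x => ?_⟩
  set A : Y → (ℕ → Set Y) × ℕ := fun y => if y < x then G y else (fun _ => ∅, 0) with hA
  have hA1 : ∀ y ∈ Iio x, A y = G y := fun y hy => if_pos hy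
  by_cases hg : ∃ p : ℕ × (ℕ → ℕ),
      Good h (Iio x) (fun y => (A y).1) (fun y => (A y).2) (h x) (task x) p.1 p.2
  · left
    have h1 := hg.choose_spec
    have h2 : G x = (fun j => insert x (⋃ k ≥ j, (A (task x k)).1 (hg.choose.2 k)),
        hg.choose.1 + 1) := by
      rw [hG x]
      exact dif_pos hg
    refine ⟨hg.choose.1, hg.choose.2, h1.congr (fun y hy => by rw [hA1 y hy])
      (fun y hy => by rw [hA1 y hy]), fun j => ?_, by simp only [h2]⟩
    simp only [h2]
    congr 1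
    refine iUnion_congr fun k => ?_
    rw [hA1 _ (h1.mem k)]
  · right
    have h2 : G x = (fun _ => {x}, 0) := by
      rw [hG x]
      exact dif_neg hg
    refine ⟨fun n f hf => hg ⟨(n, f), hf.congr (fun y hy => by rw [hA1 y hy])
      (fun y hy => by rw [hA1 y hy])⟩, fun j => by simp only [h2]⟩

theorem inv_rec {task : Y → ℕ → Y} {N : Y → ℕ → Set Y} {ρ : Y → ℕ} (hs : ∀ x,
      (∃ n f, Good h (Iio x) N ρ (h x) (task x) n f ∧
        (∀ j, N x j = insert x (⋃ k ≥ j, N (task x k) (f k))) ∧ ρ x = n + 1) ∨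
      ((∀ n f, ¬ Good h (Iio x) N ρ (h x) (task x) n f) ∧ ∀ j, N x j = {x})) :
    (∀ x, Inv h (Iio x) N ρ) ∧ Inv h univ N ρ := by
  have aux : ∀ x, (∀ y < x, Pt h (Iic y) N ρ y ∧ ∀ z < y, Sep N y z ∧ Sep N z y) →
      Inv h (Iio x) N ρ := by
    intro x ih
    refine ⟨fun y hy => (ih y hy).1.of_subset fun z hz => lt_of_le_of_lt hz hy,
      fun y hy z hz => ?_⟩
    rcases lt_trichotomy y z with h1 | rfl | h1
    · exact ((ih z hz).2 y h1).2
    · exact (ih y hy).1.sep_self
    · exact ((ih y hy).2 z h1).1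
  have key : ∀ x, Pt h (Iic x) N ρ x ∧ ∀ z < x, Sep N x z ∧ Sep N z x := by
    intro x
    induction x using WellFoundedLT.induction with
    | _ x ih =>
      rw [← Iio_insert]
      rcases hs x with ⟨n, f, G, h1, h2⟩ | ⟨-, h1⟩
      · exact step_lim (aux x ih) (lt_irrefl x) G h1 h2
      · exact step_iso (aux x ih) (lt_irrefl x) h1
  refine ⟨fun x => aux x fun y _ => key y, fun y _ => (key y).1.of_subset (subset_univ _),
    fun y _ z _ => ?_⟩
  rcases lt_trichotomy y z with h1 | rfl | h1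
  · exact ((key z).2 y h1).2
  · exact (key y).1.sep_self
  · exact ((key y).2 z h1).1

end

/-- Sequences are bounded in the least well order of a cardinal of uncountable cofinality. -/
theorem exists_bound {κ : Cardinal.{0}} (hκ : ℵ₀ < κ.ord.cof) (s : ℕ → κ.ord.ToType) :
    ∃ γ, ∀ k, s k < γ := by
  by_contra hc
  push Not at hc
  have h1 : IsCofinal (range s) := fun γ => by
    obtain ⟨k, hk⟩ := hc γ
    exact ⟨s k, mem_range_self k, hk⟩
  have h2 := Order.cof_le h1
  rw [Ordinal.cof_toType] at h2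
  exact (h2.trans (mk_range_le.trans mk_nat.le)).not_gt hκ

theorem exists_task {H : Type} [LinearOrder H] [Nonempty H] (hH : ∀ α : H, #(Iic α) ≤ 𝔠) :
    ∃ task : H ×ₗ (𝔠 : Cardinal.{0}).ord.ToType → ℕ → H ×ₗ (𝔠 : Cardinal.{0}).ord.ToType,
      ∀ α s, (∀ k, (ofLex (s k)).1 ≤ α) →
        ∃ ξ, task (toLex (α, ξ)) = s ∧ ∀ k, s k < toLex (α, ξ) := by
  set C := (𝔠 : Cardinal.{0}).ord.ToType
  have hC : #C = 𝔠 := mk_ord_toType _
  have : Nonempty C := mk_ne_zero_iff.1 (by rw [hC]; exact continuum_ne_zero)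
  have h1 : ∀ α : H, ∃ e : C → (ℕ → Iic α × C) × C, Function.Surjective e := by
    intro α
    have : Nonempty (Iic α) := ⟨⟨α, le_rfl⟩⟩
    have h2 : #((ℕ → Iic α × C) × C) ≤ #C := by
      have h3 : #(Iic α × C) ≤ 𝔠 := by
        rw [mk_prod, lift_id, lift_id, hC]
        exact (mul_le_mul_left (hH α) _).trans continuum_mul_self.le
      have h4 : #(ℕ → Iic α × C) ≤ 𝔠 := by
        rw [mk_arrow, lift_id, lift_id, mk_nat]
        exact (power_le_power_right h3).trans continuum_power_aleph0.le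
      rw [mk_prod, lift_id, lift_id, hC]
      exact (mul_le_mul_left h4 _).trans continuum_mul_self.le
    obtain ⟨g⟩ := h2
    exact ⟨_, Function.invFun_surjective g.injective⟩
  choose e he using h1
  refine ⟨fun x k => toLex (((e (ofLex x).1 (ofLex x).2).1 k).1, ((e (ofLex x).1 (ofLex x).2).1 k).2),
    fun α s hs => ?_⟩
  obtain ⟨γ, hγ⟩ := exists_bound (κ := 𝔠) (by
    rw [← two_power_aleph0]
    exact lt_cof_ord_power le_rfl one_lt_two) fun k => (ofLex (s k)).2
  let t : ℕ → Iic α × C := fun k => (⟨_, hs k⟩, (ofLex (s k)).2)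
  choose g hg using fun c : C => he α (t, c)
  have hginj : Function.Injective g := fun c c' hc => by
    have := hg c
    rw [hc, hg c'] at this
    exact (congrArg Prod.snd this).symm
  obtain ⟨c, hc⟩ : ∃ c, γ ≤ g c := by
    by_contra hc
    push Not at hc
    have h3 : #C ≤ #(Iio γ) := mk_le_of_injective (f := fun c => (⟨g c, hc c⟩ : Iio γ))
      fun c c' e => hginj (congrArg Subtype.val e)
    exact (h3.trans_lt (mk_Iio_toType_ord_lt γ)).ne hC
  refine ⟨g c, ?_, fun k => ?_⟩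
  · funext k
    simp [hg, t]
  · rcases (hs k).lt_or_eq with h3 | h3
    · exact Prod.Lex.toLex_lt_toLex.2 (Or.inl h3)
    · exact Prod.Lex.toLex_lt_toLex.2 (Or.inr ⟨h3, (hγ k).trans_le hc⟩)

theorem main_bc (hb : ∀ F : Set (ℕ → ℕ), #F < 𝔠 → ∃ g : ℕ → ℕ, ∀ f ∈ F, ∀ᶠ n in atTop, f n ≤ g n) :
    ∃ (X : Type) (_ : TopologicalSpace X), CompactSpace X ∧ T2Space X ∧
      (∃ V : X → ℕ → Set X, (∀ x n, x ∈ V x n) ∧ (∀ x n, V x (n + 1) ⊆ V x n) ∧
        (∀ O : Set X, IsOpen O ↔ ∀ x ∈ O, ∃ n, V x n ⊆ O)) ∧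
      𝔠 < #X := by
  set C := (𝔠 : Cardinal.{0}).ord.ToType
  set H := (Order.succ (𝔠 : Cardinal.{0})).ord.ToType
  have hC : #C = 𝔠 := mk_ord_toType _
  have hH : #H = Order.succ 𝔠 := mk_ord_toType _
  have : Nonempty C := mk_ne_zero_iff.1 (by rw [hC]; exact continuum_ne_zero)
  have : Nonempty H := mk_ne_zero_iff.1 (by rw [hH]; exact succ_ne_zero _)
  obtain ⟨task, htask⟩ := exists_task (H := H) fun α => by
    rw [← Iio_insert]
    refine mk_insert_le.trans ?_
    have h1 : #(Iio α) ≤ 𝔠 := Order.lt_succ_iff.1 (mk_Iio_toType_ord_lt α)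
    exact (add_le_add h1 (one_le_aleph0.trans aleph0_le_continuum)).trans continuum_add_self.le
  obtain ⟨N, ρ, hs⟩ := exists_rec (fun x : H ×ₗ C => (ofLex x).1) task
  obtain ⟨I1, I⟩ := inv_rec hs
  obtain ⟨X, τ, h1, h2, h3, h4⟩ := exists_compactum I (by
    intro s n _ hρ
    by_contra hc
    push Not at hc
    obtain ⟨γ, hγ⟩ := exists_bound (κ := Order.succ 𝔠) (by
      rw [(isRegular_succ aleph0_le_continuum).cof_ord]
      exact aleph0_lt_continuum.trans (Order.lt_succ _)) fun k => (ofLex (s k)).1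
    obtain ⟨α, φ, hφ, g1, g2⟩ := exists_subseq (fun x : H ×ₗ C => (ofLex x).1) s
      fun k => (hγ k).le
    obtain ⟨ξ, g3, g4⟩ := htask α (fun k => s (φ k)) g1
    have hfin : ∀ y, ∃ m, ∀ k ≥ m, s (φ k) ∉ N y 0 := by
      intro y
      obtain ⟨m, hm⟩ := eventually_atTop.1 (hc y)
      exact ⟨m, fun k hk => hm _ (hk.trans (hφ.id_le k))⟩
    obtain ⟨f, hf⟩ := exists_good (I1 (toLex (α, ξ))) (α := α) (s := fun k => s (φ k)) (n := n)
      g4 (fun k => hρ _) g1 (fun y _ => hfin y) g2 ((fun η => toLex (α, η)) '' Iio ξ)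
      (fun y hy => by
        rcases Prod.Lex.toLex_lt_toLex.1 (show toLex (ofLex y) < toLex (α, ξ) from hy) with h | h
        · exact Or.inr h
        · exact Or.inl ⟨(ofLex y).2, h.2, by
            have := h.1
            dsimp only at this
            rw [← this]
            rfl⟩)
      (by
        rintro _ ⟨η, hη, rfl⟩
        exact Prod.Lex.toLex_lt_toLex.2 (Or.inr ⟨rfl, hη⟩))
      (fun F => by
        obtain ⟨g, hg⟩ := hb (range F) (by
          refine mk_range_le.trans_lt ?_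
          rw [mk_sum, lift_id, lift_id, mk_nat]
          exact add_lt_of_lt aleph0_le_continuum (mk_image_le.trans_lt (mk_Iio_toType_ord_lt ξ))
            aleph0_lt_continuum)
        exact ⟨g, fun i => eventually_atTop.1 (hg _ (mem_range_self i))⟩)
    rcases hs (toLex (α, ξ)) with ⟨n', f', G, k1, -⟩ | ⟨k1, -⟩
    · obtain ⟨m, hm⟩ := hfin (toLex (α, ξ))
      refine hm m le_rfl ?_
      rw [k1, g3]
      exact Or.inr (mem_biUnion (show m ≥ 0 from Nat.zero_le m) ((I.pt _ trivial).self _))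
    · exact k1 n f (g3 ▸ hf))
  refine ⟨X, τ, h1, h2, h3, lt_of_lt_of_le ?_ h4⟩
  refine (Order.lt_succ _).trans_le (hH.ge.trans ?_)
  obtain ⟨c⟩ := ‹Nonempty C›
  exact mk_le_of_injective (f := fun α : H => (toLex (α, c) : H ×ₗ C))
    fun a b e => congrArg Prod.fst (toLex.injective e)

end Pool.Agent.Lib.MP_f9875e_gt
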