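import Pool.Agent.Lib.MP_f9875e_gt.H28Core

/-!
The one-point compactification of a saturated system is weakly first countable.
-/

open Set Filter Topology

namespace Pool.Agent.Lib.MP_f9875e_gt

variable {Y H : Type} [LinearOrder H] {h : Y → H} {N : Y → ℕ → Set Y} {ρ : Y → ℕ}

/-- The topology of a system. -/
@[reducible] def sysTop (I : Inv h univ N ρ) : TopologicalSpace Y where
  IsOpen O := ∀ x ∈ O, ∃ j, N x j ⊆ O
  isOpen_univ := fun _ _ => ⟨0, subset_univ _⟩
  isOpen_inter := fun A B hA hB x hx => by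
    obtain ⟨i, hi⟩ := hA x hx.1
    obtain ⟨j, hj⟩ := hB x hx.2
    exact ⟨max i j, subset_inter (((I.pt x trivial).mono (le_max_left _ _)).trans hi)
      (((I.pt x trivial).mono (le_max_right _ _)).trans hj)⟩
  isOpen_sUnion := fun S hS x ⟨A, hA, hx⟩ => by
    obtain ⟨j, hj⟩ := hS A hA x hx
    exact ⟨j, hj.trans (subset_sUnion_of_mem hA)⟩

section

variable [TopologicalSpace Y] (I : Inv h univ N ρ)
  (hO : ∀ O : Set Y, IsOpen O ↔ ∀ x ∈ O, ∃ j, N x j ⊆ O)

include I hO

theorem open_N (x : Y) (j : ℕ) : IsOpen (N x j) :=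
  (hO _).2 fun y hy => (I.sep x trivial y trivial).opn j hy

theorem closed_N (x : Y) (j : ℕ) : IsClosed (N x j) :=
  ⟨(hO _).2 fun y hy => by
    obtain ⟨i, hi⟩ := (I.sep x trivial y trivial).cls j hy
    exact ⟨i, hi.subset_compl_right⟩⟩

theorem t2_sys : T2Space Y := by
  refine ⟨fun x y hne => ?_⟩
  obtain ⟨j, hj⟩ := (I.sep x trivial y trivial).hd hne
  exact ⟨N x j, (N x j)ᶜ, open_N I hO x j, (closed_N I hO x j).isOpen_compl,
    (I.pt x trivial).self j, hj, disjoint_compl_right⟩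

theorem compact_N (x : Y) : IsCompact (N x 0) := by
  induction hn : ρ x using Nat.strong_induction_on generalizing x with
  | _ n ih =>
    refine isCompact_of_finite_subcover fun {ι} U hU hc => ?_
    obtain ⟨a, ha⟩ := mem_iUnion.1 (hc ((I.pt x trivial).self 0))
    obtain ⟨i, hi⟩ := (hO _).1 (hU a) x ha
    obtain ⟨T, h1, h2, h3⟩ := (I.pt x trivial).cpt i
    have hK : IsCompact (N x 0 \ N x i) :=
      (h1.isCompact_biUnion fun y hy => ih _ (hn ▸ (h2 y hy).2) y rfl).of_isClosed_subset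
        ((closed_N I hO x 0).sdiff (open_N I hO x i)) h3
    obtain ⟨t, ht⟩ := hK.elim_finite_subcover U hU (sdiff_subset.trans hc)
    classical
    refine ⟨insert a t, fun z hz => ?_⟩
    by_cases hz' : z ∈ N x i
    · exact mem_biUnion (Finset.mem_insert_self a t) (hi hz')
    · obtain ⟨b, hb, hb'⟩ := mem_iUnion₂.1 (ht ⟨hz, hz'⟩)
      exact mem_biUnion (Finset.mem_insert_of_mem hb) hb'

theorem bdd_of_compact {K : Set Y} (hK : IsCompact K) : ∃ n, ∀ y ∈ K, ρ y < n := by
  obtain ⟨t, ht⟩ := hK.elim_finite_subcover (fun x => N x 0) (fun x => open_N I hO x 0)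
    fun y _ => mem_iUnion.2 ⟨y, (I.pt y trivial).self 0⟩
  refine ⟨t.sup ρ + 1, fun y hy => ?_⟩
  obtain ⟨x, hx, hx'⟩ := mem_iUnion₂.1 (ht hy)
  have h1 : ρ x ≤ t.sup ρ := Finset.le_sup hx
  by_cases e : y = x
  · rw [e]; omega
  · have := (I.pt x trivial).rlt y hx' e
    omega

theorem compact_of_bdd
    (hsat : ∀ (s : ℕ → Y) (n : ℕ), Function.Injective s → (∀ k, ρ (s k) ≤ n) →
      ∃ y, ∃ᶠ k in atTop, s k ∈ N y 0) (n : ℕ) :
    ∀ K : Set Y, IsClosed K → (∀ y ∈ K, ρ y < n) → IsCompact K := by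
  induction n with
  | zero =>
    intro K _ hK
    rw [eq_empty_of_forall_notMem fun y hy => Nat.not_lt_zero _ (hK y hy)]
    exact isCompact_empty
  | succ n ih =>
    intro K hK hρ
    have hfin : {y ∈ K | ρ y = n}.Finite := by
      by_contra hinf
      let s := Set.Infinite.natEmbedding _ hinf
      have hsK : ∀ k, (s k).1 ∈ K := fun k => (s k).2.1
      have hsρ : ∀ k, ρ (s k).1 = n := fun k => (s k).2.2
      have hinj : Function.Injective fun k => (s k).1 := Subtype.val_injective.comp s.injective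
      obtain ⟨y, hy⟩ := hsat _ n hinj fun k => (hsρ k).le
      obtain ⟨z, hz, hz'⟩ := ((compact_N I hO y).inter_right hK).exists_mapClusterPt_of_frequently
        (l := atTop) (f := fun k => (s k).1) (hy.mono fun k hk => ⟨hk, hsK k⟩)
      have h1 : ∃ᶠ k in atTop, (s k).1 ∈ N z 0 :=
        hz'.frequently ((open_N I hO z 0).mem_nhds ((I.pt z trivial).self 0))
      have h2 : ∀ᶠ k in atTop, (s k).1 ≠ z := by
        by_cases hk : ∃ k₀, (s k₀).1 = z
        · obtain ⟨k₀, hk⟩ := hk
          filter_upwards [eventually_gt_atTop k₀] with k hk' e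
          exact hk'.ne' (hinj (e.trans hk.symm))
        · exact Eventually.of_forall fun k e => hk ⟨k, e⟩
      obtain ⟨k, h3, h4⟩ := (h1.and_eventually h2).exists
      have := (I.pt z trivial).rlt _ h3 h4
      have := hρ z hz.2
      have := hsρ k
      omega
    have hA : IsCompact (⋃ y ∈ {y ∈ K | ρ y = n}, N y 0) :=
      hfin.isCompact_biUnion fun y _ => compact_N I hO y
    have hB : IsCompact (K \ ⋃ y ∈ {y ∈ K | ρ y = n}, N y 0) := by
      refine ih _ (hK.sdiff (isOpen_biUnion fun y _ => open_N I hO y 0)) fun y hy => ?_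
      have h1 := hρ y hy.1
      have h2 : ρ y ≠ n := fun e =>
        hy.2 (mem_biUnion (show y ∈ {y ∈ K | ρ y = n} from ⟨hy.1, e⟩) ((I.pt y trivial).self 0))
      omega
    refine (hA.union hB).of_isClosed_subset hK fun y hy => ?_
    by_cases hy' : y ∈ ⋃ y ∈ {y ∈ K | ρ y = n}, N y 0
    · exact Or.inl hy'
    · exact Or.inr ⟨hy, hy'⟩

end

/-- The compactum attached to a saturated system. -/
theorem exists_compactum (I : Inv h univ N ρ)
    (hsat : ∀ (s : ℕ → Y) (n : ℕ), Function.Injective s → (∀ k, ρ (s k) ≤ n) →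
      ∃ y, ∃ᶠ k in atTop, s k ∈ N y 0) :
    ∃ (X : Type) (_ : TopologicalSpace X), CompactSpace X ∧ T2Space X ∧
      (∃ V : X → ℕ → Set X, (∀ x n, x ∈ V x n) ∧ (∀ x n, V x (n + 1) ⊆ V x n) ∧
        (∀ O : Set X, IsOpen O ↔ ∀ x ∈ O, ∃ n, V x n ⊆ O)) ∧
      Cardinal.mk Y ≤ Cardinal.mk X := by
  let _ := sysTop I
  have hO : ∀ O : Set Y, IsOpen O ↔ ∀ x ∈ O, ∃ j, N x j ⊆ O := fun _ => Iff.rfl
  have := t2_sys I hO
  have : WeaklyLocallyCompactSpace Y := ⟨fun x => ⟨N x 0, compact_N I hO x,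
    (open_N I hO x 0).mem_nhds ((I.pt x trivial).self 0)⟩⟩
  let V : OnePoint Y → ℕ → Set (OnePoint Y) := fun x n =>
    x.elim (insert OnePoint.infty (OnePoint.some '' {y : Y | n ≤ ρ y}))
      (fun y => OnePoint.some '' N y n)
  have hV1 : ∀ n, V OnePoint.infty n = insert OnePoint.infty (OnePoint.some '' {y : Y | n ≤ ρ y}) :=
    fun _ => rfl
  have hV2 : ∀ (y : Y) n, V y n = OnePoint.some '' N y n := fun _ _ => rfl
  refine ⟨OnePoint Y, inferInstance, inferInstance, inferInstance, ⟨V, ?_, ?_, fun O => ?_⟩,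
    Cardinal.mk_le_of_injective OnePoint.coe_injective⟩
  · intro x n
    induction x using OnePoint.rec with
    | infty => exact Or.inl rfl
    | coe y => exact mem_image_of_mem _ ((I.pt y trivial).self n)
  · intro x n
    induction x using OnePoint.rec with
    | infty =>
      rw [hV1, hV1]
      exact insert_subset_insert (image_mono fun y (hy : n + 1 ≤ ρ y) => Nat.le_of_succ_le hy)
    | coe y => exact image_mono ((I.pt y trivial).anti n)
  · rw [OnePoint.isOpen_def]
    constructor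
    · rintro ⟨h1, h2⟩ x hx
      induction x using OnePoint.rec with
      | infty =>
        obtain ⟨n, hn⟩ := bdd_of_compact I hO (h1 hx)
        refine ⟨n, ?_⟩
        rw [hV1]
        refine insert_subset hx ?_
        rintro _ ⟨y, hy, rfl⟩
        by_contra hc
        exact (hn y hc).not_ge hy
      | coe y =>
        obtain ⟨j, hj⟩ := (hO _).1 h2 y hx
        exact ⟨j, image_subset_iff.2 hj⟩
    · intro hV
      have h2 : IsOpen ((↑) ⁻¹' O : Set Y) := (hO _).2 fun y hy => by
        obtain ⟨j, hj⟩ := hV y hy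
        exact ⟨j, image_subset_iff.1 hj⟩
      refine ⟨fun h1 => ?_, h2⟩
      obtain ⟨n, hn⟩ := hV _ h1
      refine compact_of_bdd I hO hsat n _ h2.isClosed_compl fun y hy => ?_
      by_contra hc
      exact hy (hn (Or.inr ⟨y, not_lt.1 hc, rfl⟩))

end Pool.Agent.Lib.MP_f9875e_gt
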